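import Mathlib

/-! Topological lemmas for MP_b001a4_an. -/

set_option autoImplicit false

namespace Pool.Agent.helper85.Path

open Filter Set Metric
open scoped Topology

theorem ball_diff_countable {S : Set ℂ} (hS : S.Countable) (x : ℂ) {r : ℝ} (hr : 0 < r) :
    IsPathConnected (ball x r \ S) := by
  set e := OpenPartialHomeomorph.univBall x r with he
  have hsrc : e.source = univ := OpenPartialHomeomorph.univBall_source x r
  have htgt : e.target = ball x r := OpenPartialHomeomorph.univBall_target x hr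
  have hinj : Function.Injective e := by
    rw [← injOn_univ, ← hsrc]
    exact e.injOn
  have hcont : Continuous e := OpenPartialHomeomorph.continuous_univBall x r
  have hS' : (e ⁻¹' S).Countable := hS.preimage_of_injOn hinj.injOn
  have h1 : IsPathConnected (e ⁻¹' S)ᶜ :=
    hS'.isPathConnected_compl_of_one_lt_rank (by simp)
  have h2 := h1.image hcont
  have h3 : e '' (e ⁻¹' S)ᶜ = ball x r \ S := by
    ext w
    constructor
    · rintro ⟨v, hv, rfl⟩
      refine ⟨?_, hv⟩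
      rw [← htgt]
      exact e.map_source (by rw [hsrc]; trivial)
    · rintro ⟨hw1, hw2⟩
      rw [← htgt] at hw1
      refine ⟨e.symm w, ?_, e.right_inv hw1⟩
      show e (e.symm w) ∉ S
      rw [e.right_inv hw1]
      exact hw2
  rwa [h3] at h2

/-- M3: an open connected plane set minus a countable set is path connected. -/
theorem joinedIn_diff_countable {U S : Set ℂ} (hU : IsOpen U) (hc : IsPreconnected U)
    (hS : S.Countable) {a b : ℂ} (ha : a ∈ U \ S) (hb : b ∈ U \ S) : JoinedIn (U \ S) a b := by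
  set V : Set ℂ := {x | ∃ r > 0, ball x r ⊆ U ∧ ∀ y ∈ ball x r \ S, JoinedIn (U \ S) a y} with hV
  set W : Set ℂ := {x | ∃ r > 0, ball x r ⊆ U ∧ ∀ y ∈ ball x r \ S, ¬ JoinedIn (U \ S) a y} with hW
  have hVo : IsOpen V := by
    rw [Metric.isOpen_iff]
    rintro x ⟨r, hr, h1, h2⟩
    refine ⟨r / 2, by positivity, fun y hy => ⟨r / 2, by positivity, ?_, ?_⟩⟩
    · exact (ball_subset_ball' (by rw [mem_ball] at hy; linarith)).trans h1
    · intro w hw
      exact h2 w ⟨ball_subset_ball' (by rw [mem_ball] at hy; linarith) hw.1, hw.2⟩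
  have hWo : IsOpen W := by
    rw [Metric.isOpen_iff]
    rintro x ⟨r, hr, h1, h2⟩
    refine ⟨r / 2, by positivity, fun y hy => ⟨r / 2, by positivity, ?_, ?_⟩⟩
    · exact (ball_subset_ball' (by rw [mem_ball] at hy; linarith)).trans h1
    · intro w hw
      exact h2 w ⟨ball_subset_ball' (by rw [mem_ball] at hy; linarith) hw.1, hw.2⟩
  have hcase : ∀ x ∈ U, ∃ r > 0, ball x r ⊆ U ∧ IsPathConnected (ball x r \ S) := by
    intro x hx
    obtain ⟨r, hr, h1⟩ := Metric.isOpen_iff.1 hU x hx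
    exact ⟨r, hr, h1, ball_diff_countable hS x hr⟩
  have hcov : U ⊆ V ∪ W := by
    intro x hx
    obtain ⟨r, hr, h1, h2⟩ := hcase x hx
    by_cases hj : ∃ y ∈ ball x r \ S, JoinedIn (U \ S) a y
    · left
      obtain ⟨y, hy, hay⟩ := hj
      refine ⟨r, hr, h1, fun w hw => hay.trans ?_⟩
      exact (h2.joinedIn y hy w hw).mono (sdiff_subset_sdiff_left h1)
    · right
      push Not at hj
      exact ⟨r, hr, h1, hj⟩
  have haV : a ∈ V := by
    obtain ⟨r, hr, h1, h2⟩ := hcase a ha.1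
    refine ⟨r, hr, h1, fun w hw => ?_⟩
    exact (h2.joinedIn a ⟨mem_ball_self hr, ha.2⟩ w hw).mono (sdiff_subset_sdiff_left h1)
  have hbV : b ∈ V := by
    by_contra hbV
    have hbW : b ∈ W := (hcov hb.1).resolve_left hbV
    obtain ⟨x, hxU, hxV, hxW⟩ := hc V W hVo hWo hcov ⟨a, ha.1, haV⟩ ⟨b, hb.1, hbW⟩
    obtain ⟨r1, hr1, -, h1⟩ := hxV
    obtain ⟨r2, hr2, -, h2⟩ := hxW
    obtain ⟨y, hy1, hy2⟩ := (hS.dense_compl ℝ).inter_open_nonempty (ball x r1 ∩ ball x r2)
      (isOpen_ball.inter isOpen_ball) ⟨x, mem_ball_self hr1, mem_ball_self hr2⟩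
    exact h2 y ⟨hy1.2, hy2⟩ (h1 y ⟨hy1.1, hy2⟩)
  obtain ⟨r, hr, -, h⟩ := hbV
  exact h b ⟨mem_ball_self hr, hb.2⟩

/-- M3': concatenation of infinitely many paths. -/
theorem concat (X : ℕ → Set ℂ) (z : ℕ → ℂ) (h : ∀ n, JoinedIn (X n) (z n) (z (n + 1))) :
    ∃ γ : ℝ → ℂ, Continuous γ ∧ ∀ n : ℕ, ∀ t : ℝ, (n : ℝ) ≤ t → t ≤ n + 1 → γ t ∈ X n := by
  set Q : ℕ → ℝ → ℂ := fun n x => (h n).somePath.extend x with hQ
  have hQc : ∀ n, Continuous (Q n) := fun n => (h n).somePath.continuous_extend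
  have hQ0 : ∀ n, Q n 0 = z n := fun n => (h n).somePath.extend_zero
  have hQ1 : ∀ n, Q n 1 = z (n + 1) := fun n => (h n).somePath.extend_one
  have hm : Continuous fun t : ℝ => max t 0 := continuous_id.max continuous_const
  set γ : ℝ → ℂ := fun t => Q ⌊max t 0⌋₊ (max t 0 - ⌊max t 0⌋₊) with hγ
  have key : ∀ n : ℕ, ∀ t : ℝ, (n : ℝ) ≤ max t 0 → max t 0 ≤ n + 1 →
      γ t = Q n (max t 0 - n) := by
    intro n t h1 h2
    rcases h2.lt_or_eq with h2 | h2
    · have h3 : ⌊max t 0⌋₊ = n := (Nat.floor_eq_iff (le_max_right _ _)).2 ⟨h1, h2⟩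
      show Q ⌊max t 0⌋₊ (max t 0 - ⌊max t 0⌋₊) = _
      rw [h3]
    · have h3 : ⌊max t 0⌋₊ = n + 1 := by
        rw [h2]
        exact_mod_cast Nat.floor_natCast (R := ℝ) (n + 1)
      show Q ⌊max t 0⌋₊ (max t 0 - ⌊max t 0⌋₊) = _
      rw [h3, h2]
      push_cast
      rw [sub_self, add_sub_cancel_left, hQ0, hQ1]
  refine ⟨γ, ?_, ?_⟩
  · have hlf : LocallyFinite (fun n : ℕ => {t : ℝ | (n : ℝ) ≤ max t 0 ∧ max t 0 ≤ n + 1}) := by
      intro t
      refine ⟨ball t 1, ball_mem_nhds t one_pos, ?_⟩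
      refine (finite_le_nat ⌈max t 0 + 1⌉₊).subset ?_
      rintro n ⟨u, ⟨hu1, hu2⟩, hu3⟩
      rw [mem_ball, Real.dist_eq, abs_lt] at hu3
      have h4 : max u 0 ≤ max t 0 + 1 := by
        rcases le_total u 0 with h5 | h5
        · rw [max_eq_right h5]; have := le_max_right t 0; linarith
        · rw [max_eq_left h5]; have := le_max_left t 0; linarith
      have h5 : (n : ℝ) ≤ (⌈max t 0 + 1⌉₊ : ℝ) := (hu1.trans h4).trans (Nat.le_ceil _)
      exact_mod_cast h5
    refine hlf.continuous ?_ ?_ ?_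
    · rw [iUnion_eq_univ_iff]
      intro t
      exact ⟨⌊max t 0⌋₊, Nat.floor_le (le_max_right _ _), (Nat.lt_floor_add_one _).le⟩
    · intro n
      exact (isClosed_le continuous_const hm).inter (isClosed_le hm continuous_const)
    · intro n
      refine ContinuousOn.congr (f := fun t => Q n (max t 0 - n)) ?_
        (fun t ht => key n t ht.1 ht.2)
      exact ((hQc n).comp (hm.sub continuous_const)).continuousOn
  · intro n t h1 h2
    have ht : 0 ≤ t := le_trans (Nat.cast_nonneg n) h1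
    rw [← max_eq_left ht] at h1 h2
    rw [key n t h1 h2]
    have h3 : max t 0 - n ∈ Icc (0 : ℝ) 1 := ⟨by linarith, by linarith⟩
    show (h n).somePath.extend (max t 0 - n) ∈ X n
    rw [Path.extend_apply _ h3]
    exact (h n).somePath_mem _

end Pool.Agent.helper85.Path
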