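import Pool.Agent.helper85.Path.Join

/-! Final assembly. -/

set_option autoImplicit false

namespace Pool.Agent.helper85.Path

open Filter Set
open scoped Topology

theorem growth {κ s C : ℝ} (hs0 : 0 < s) (hsκ : s < κ) (n : ℕ) :
    Tendsto (fun x : ℝ => Real.exp (x ^ κ - C * (1 + x) ^ s) / x ^ n) atTop atTop := by
  have hκ0 : 0 < κ := by linarith
  have h1 : Tendsto (fun x : ℝ => Real.exp (1 / 2 * x ^ κ) / (x ^ κ) ^ ((n : ℝ) / κ)) atTop atTop :=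
    (tendsto_exp_mul_div_rpow_atTop ((n : ℝ) / κ) (1 / 2) (by norm_num)).comp
      (tendsto_rpow_atTop hκ0)
  refine tendsto_atTop_mono' _ ?_ h1
  have h2 := (tendsto_rpow_atTop (by linarith : 0 < κ - s)).eventually_ge_atTop
    (2 * |C| * 2 ^ s)
  filter_upwards [h2, eventually_ge_atTop 1] with x hx hx1
  have hx0 : 0 < x := by linarith
  have h3 : (x ^ κ) ^ ((n : ℝ) / κ) = x ^ n := by
    rw [← Real.rpow_mul hx0.le, mul_div_cancel₀ _ hκ0.ne', Real.rpow_natCast]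
  rw [h3]
  have h4 : C * (1 + x) ^ s ≤ 1 / 2 * x ^ κ := by
    calc C * (1 + x) ^ s ≤ |C| * (1 + x) ^ s := by gcongr; exact le_abs_self C
      _ ≤ |C| * (2 * x) ^ s := by gcongr; linarith
      _ = 1 / 2 * ((2 * |C| * 2 ^ s) * x ^ s) := by
        rw [Real.mul_rpow (by norm_num) hx0.le]; ring
      _ ≤ 1 / 2 * (x ^ (κ - s) * x ^ s) := by gcongr
      _ = 1 / 2 * x ^ κ := by rw [← Real.rpow_add hx0]; congr 2; ring
  gcongr
  linarith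

theorem assemble {f F : ℂ → ℂ} {S : Set ℂ} {s C κ : ℝ} (hs0 : 0 < s) (hsκ : s < κ)
    (hle : ∀ z ∉ S, ‖F z‖ ≤ ‖f z‖ * Real.exp (C * (1 + ‖z‖) ^ s))
    (hpath : ∃ γ : ℝ → ℂ, Continuous γ ∧ Tendsto (fun t => ‖γ t‖) atTop atTop ∧
      ∀ t : ℝ, 0 ≤ t → γ t ∉ S ∧ Real.exp (‖γ t‖ ^ κ) ≤ ‖F (γ t)‖) :
    ∃ γ : ℝ → ℂ, Continuous γ ∧
        Filter.Tendsto (fun t => ‖γ t‖) Filter.atTop Filter.atTop ∧
        ∀ n : ℕ, Filter.Tendsto (fun t => ‖f (γ t)‖ / ‖γ t‖ ^ n) Filter.atTop Filter.atTop := by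
  obtain ⟨γ, h1, h2, h3⟩ := hpath
  refine ⟨γ, h1, h2, fun n => ?_⟩
  refine tendsto_atTop_mono' _ ?_ ((growth (C := C) hs0 hsκ n).comp h2)
  filter_upwards [eventually_ge_atTop 0] with t ht
  obtain ⟨h4, h5⟩ := h3 t ht
  have h6 := hle _ h4
  show Real.exp (‖γ t‖ ^ κ - C * (1 + ‖γ t‖) ^ s) / ‖γ t‖ ^ n ≤ _
  have h7 : Real.exp (‖γ t‖ ^ κ - C * (1 + ‖γ t‖) ^ s) ≤ ‖f (γ t)‖ := by
    rw [Real.exp_sub, div_le_iff₀ (Real.exp_pos _)]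
    exact h5.trans h6
  gcongr

end Pool.Agent.helper85.Path
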