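import Pool.Agent.helper85.Path.Ind

/-! Carleman's argument. -/

set_option autoImplicit false

namespace Pool.Agent.helper85.Path

open Filter Set MeasureTheory intervalIntegral Complex
open scoped Topology Real

variable {E : ℂ → ℂ} {M T : ℝ} {D : Set ℂ}

/-- Circle integral of `1_D hh^p`. -/
noncomputable def Ai (E : ℂ → ℂ) (M : ℝ) (D : Set ℂ) (p t : ℝ) : ℝ :=
  ∫ θ in (0 : ℝ)..(2 * π), D.indicator (fun ζ => hh E M ζ ^ p) (t + θ * I)

noncomputable def Bi (E : ℂ → ℂ) (M : ℝ) (D : Set ℂ) (p : ℝ) (v : ℂ) (t : ℝ) : ℝ :=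
  ∫ θ in (0 : ℝ)..(2 * π), D.indicator (P1 E M p v) (t + θ * I)

noncomputable def Ci (E : ℂ → ℂ) (M : ℝ) (D : Set ℂ) (p : ℝ) (v : ℂ) (t : ℝ) : ℝ :=
  ∫ θ in (0 : ℝ)..(2 * π), D.indicator (P2 E M p v) (t + θ * I)

noncomputable def Qi (E : ℂ → ℂ) (M : ℝ) (D : Set ℂ) (p : ℝ) (v : ℂ) (t : ℝ) : ℝ :=
  ∫ θ in (0 : ℝ)..(2 * π), D.indicator (fun ζ => hh E M ζ ^ (p - 2) * Gd E v ζ ^ 2) (t + θ * I)

theorem cont_line {f : ℂ → ℝ} (hf : ContinuousOn f {ζ | ζ.re < T}) {t : ℝ} (ht : t < T) :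
    Continuous fun θ : ℝ => f (t + θ * I) := by
  apply hf.comp_continuous (by fun_prop)
  intro θ
  simp [ht]

theorem Comp.pos (h : Comp E M T D) {ζ : ℂ} (hζ : ζ.re < T) (hD : ζ ∈ D) : 0 < hh E M ζ := by
  rcases h.tri ζ hζ with ⟨_, hM⟩ | hD' | ⟨_, _, hD'⟩
  · exact sub_pos.2 hM
  · exact absurd hD (mem_of_mem_nhds hD')
  · exact absurd hD hD'

theorem Comp.hasDerivAt_A (h : Comp E M T D) {p : ℝ} (hp : 1 < p) {t : ℝ} (ht : t < T) :
    HasDerivAt (Ai E M D p) (Bi E M D p 1 t) t :=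
  hasDerivAt_param (h.cont0 (by linarith)) (h.cont1 hp 1) (fun _ hζ => h.deriv0 hp 1 hζ) ht

theorem Comp.hasDerivAt_B (h : Comp E M T D) {p : ℝ} (hp : 2 < p) {t : ℝ} (ht : t < T) :
    HasDerivAt (Bi E M D p 1) (Ci E M D p 1 t) t :=
  hasDerivAt_param (h.cont1 (by linarith) 1) (h.cont2 hp 1) (fun _ hζ => h.deriv1 hp 1 hζ) ht

/-- Periodicity in the imaginary direction. -/
structure Per (E : ℂ → ℂ) (D : Set ℂ) : Prop where
  E : ∀ ζ, E (ζ + 2 * π * I) = E ζ
  D : ∀ ζ, ζ + 2 * π * I ∈ D ↔ ζ ∈ D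

theorem Per.deriv (hp : Per E D) (ζ : ℂ) : deriv E (ζ + 2 * π * I) = deriv E ζ := by
  have := deriv_comp_add_const E (2 * π * I) ζ
  rw [← this]
  congr 1
  funext z
  exact hp.E z

theorem Per.Ld (hp : Per E D) (ζ : ℂ) : Ld E (ζ + 2 * π * I) = Ld E ζ := by
  rw [Path.Ld, Path.Ld, hp.deriv, hp.E]

theorem Per.hh (hp : Per E D) (ζ : ℂ) : hh E M (ζ + 2 * π * I) = hh E M ζ := by
  rw [Path.hh, Path.hh, hp.E]

theorem Per.Gd (hp : Per E D) (v ζ : ℂ) : Gd E v (ζ + 2 * π * I) = Gd E v ζ := by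
  rw [Path.Gd, Path.Gd, hp.Ld]

theorem Per.P1 (hp : Per E D) (p : ℝ) (v ζ : ℂ) : P1 E M p v (ζ + 2 * π * I) = P1 E M p v ζ := by
  rw [Path.P1, Path.P1, hp.hh, hp.Gd]

theorem Per.ind (hp : Per E D) {f : ℂ → ℝ} (hf : ∀ ζ, f (ζ + 2 * π * I) = f ζ) (ζ : ℂ) :
    D.indicator f (ζ + 2 * π * I) = D.indicator f ζ := by
  by_cases hz : ζ ∈ D
  · rw [indicator_of_mem hz, indicator_of_mem ((hp.D ζ).2 hz), hf]
  · rw [indicator_of_notMem hz, indicator_of_notMem (fun h => hz ((hp.D ζ).1 h))]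

theorem Per.line (hp : Per E D) {f : ℂ → ℝ} (hf : ∀ ζ, f (ζ + 2 * π * I) = f ζ) (t : ℝ) :
    Function.Periodic (fun θ : ℝ => D.indicator f (t + θ * I)) (2 * π) := by
  intro θ
  simp only
  rw [← hp.ind hf (t + θ * I)]
  congr 1
  push_cast
  ring

theorem Comp.C_I (h : Comp E M T D) (hper : Per E D) {p : ℝ} (hp : 2 < p) {t : ℝ} (ht : t < T) :
    Ci E M D p I t = 0 := by
  have hd : ∀ θ ∈ uIcc (0 : ℝ) (2 * π), HasDerivAt (fun θ : ℝ => D.indicator (P1 E M p I) (t + θ * I))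
      (D.indicator (P2 E M p I) (t + θ * I)) θ := by
    intro θ _
    exact shift_deriv (g := D.indicator (P1 E M p I)) (g' := D.indicator (P2 E M p I)) (v := I)
      (ζ := t) (s := θ) (h.deriv1 hp I (by simp [ht]))
  rw [Ci, integral_eq_sub_of_hasDerivAt hd ((cont_line (h.cont2 hp I) ht).intervalIntegrable _ _)]
  have := (hper.line (f := P1 E M p I) (fun ζ => hper.P1 p I ζ) t) 0
  simp only [zero_add] at this
  rw [this, sub_self]

theorem Comp.C_eq (h : Comp E M T D) (hper : Per E D) {p : ℝ} (hp : 2 < p) {t : ℝ} (ht : t < T) :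
    Ci E M D p 1 t = p * (p - 1) * (Qi E M D p 1 t + Qi E M D p I t) := by
  have hi : ∀ v, IntervalIntegrable
      (fun θ : ℝ => D.indicator (fun ζ => hh E M ζ ^ (p - 2) * Gd E v ζ ^ 2) (t + θ * I))
      volume 0 (2 * π) := fun v => (cont_line (h.cont3 hp v) ht).intervalIntegrable _ _
  have hi2 : ∀ v, IntervalIntegrable (fun θ : ℝ => D.indicator (P2 E M p v) (t + θ * I))
      volume 0 (2 * π) := fun v => (cont_line (h.cont2 hp v) ht).intervalIntegrable _ _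
  have e : Ci E M D p 1 t + Ci E M D p I t
      = p * (p - 1) * (Qi E M D p 1 t + Qi E M D p I t) := by
    rw [Ci, Ci, Qi, Qi, ← intervalIntegral.integral_add (hi2 1) (hi2 I),
      ← intervalIntegral.integral_add (hi 1) (hi I), ← intervalIntegral.integral_const_mul]
    congr 1
    funext θ
    by_cases hz : ((t : ℂ) + θ * I) ∈ D
    · simp only [indicator_of_mem hz, P2]
      have : (1 * (1 * deriv (Ld E) (t + θ * I))).re + (I * (I * deriv (Ld E) (t + θ * I))).re = 0 := by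
        rw [← mul_assoc, ← mul_assoc, I_mul_I]; simp
      linear_combination (p * hh E M (t + θ * I) ^ (p - 1)) * this
    · simp only [indicator_of_notMem hz]; ring
  rw [h.C_I hper hp ht, add_zero] at e
  exact e

theorem Qi_nonneg (h : Comp E M T D) {p : ℝ} (v : ℂ) {t : ℝ} (ht : t < T) :
    0 ≤ Qi E M D p v t := by
  apply intervalIntegral.integral_nonneg (by positivity)
  intro θ _
  by_cases hz : ((t : ℂ) + θ * I) ∈ D
  · rw [indicator_of_mem hz]
    have := h.pos (ζ := t + θ * I) (by simp [ht]) hz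
    positivity
  · rw [indicator_of_notMem hz]

theorem Ai_nonneg (h : Comp E M T D) {p : ℝ} {t : ℝ} (ht : t < T) :
    0 ≤ Ai E M D p t := by
  apply intervalIntegral.integral_nonneg (by positivity)
  intro θ _
  by_cases hz : ((t : ℂ) + θ * I) ∈ D
  · rw [indicator_of_mem hz]
    have := h.pos (ζ := t + θ * I) (by simp [ht]) hz
    positivity
  · rw [indicator_of_notMem hz]

/-- Cauchy-Schwarz for interval integrals of continuous functions. -/
theorem cs {X Y : ℝ → ℝ} {a b : ℝ} (hab : a ≤ b) (hX : Continuous X) (hY : Continuous Y)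
    (hpos : 0 < ∫ t in a..b, X t ^ 2) :
    (∫ t in a..b, X t * Y t) ^ 2 ≤ (∫ t in a..b, X t ^ 2) * ∫ t in a..b, Y t ^ 2 := by
  set S := ∫ t in a..b, X t ^ 2
  set R := ∫ t in a..b, X t * Y t
  set V := ∫ t in a..b, Y t ^ 2
  have h0 : 0 ≤ ∫ t in a..b, (R / S * X t - Y t) ^ 2 :=
    intervalIntegral.integral_nonneg hab fun t _ => sq_nonneg _
  have e : ∀ t, (R / S * X t - Y t) ^ 2 = (R / S) ^ 2 * X t ^ 2 - 2 * (R / S) * (X t * Y t) + Y t ^ 2 := by
    intro t; ring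
  simp_rw [e] at h0
  rw [intervalIntegral.integral_add, intervalIntegral.integral_sub,
    intervalIntegral.integral_const_mul, intervalIntegral.integral_const_mul] at h0
  · change 0 ≤ (R / S) ^ 2 * S - 2 * (R / S) * R + V at h0
    have e2 : (R / S) ^ 2 * S - 2 * (R / S) * R + V = V - R ^ 2 / S := by
      field_simp; ring
    rw [e2, sub_nonneg, div_le_iff₀ hpos] at h0
    linarith
  · exact (continuous_const.mul (hX.pow 2)).intervalIntegrable _ _
  · exact (continuous_const.mul (hX.mul hY)).intervalIntegrable _ _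
  · exact ((continuous_const.mul (hX.pow 2)).sub (continuous_const.mul (hX.mul hY))).intervalIntegrable _ _
  · exact (hY.pow 2).intervalIntegrable _ _

theorem Comp.sq0 (h : Comp E M T D) {p : ℝ} {ζ : ℂ} (hζ : ζ.re < T) :
    D.indicator (fun ζ => hh E M ζ ^ (p / 2)) ζ ^ 2 = D.indicator (fun ζ => hh E M ζ ^ p) ζ := by
  by_cases hz : ζ ∈ D
  · rw [indicator_of_mem hz, indicator_of_mem hz, ← Real.rpow_natCast, ← Real.rpow_mul (h.pos hζ hz).le]
    norm_num
  · rw [indicator_of_notMem hz, indicator_of_notMem hz]; norm_num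

theorem Comp.sq1 (h : Comp E M T D) {p : ℝ} (v : ℂ) {ζ : ℂ} (hζ : ζ.re < T) :
    D.indicator (P1 E M (p / 2) v) ζ ^ 2
      = p ^ 2 / 4 * D.indicator (fun ζ => hh E M ζ ^ (p - 2) * Gd E v ζ ^ 2) ζ := by
  by_cases hz : ζ ∈ D
  · rw [indicator_of_mem hz, indicator_of_mem hz, P1]
    have hpos := h.pos hζ hz
    have e : (hh E M ζ ^ (p / 2 - 1)) ^ 2 = hh E M ζ ^ (p - 2) := by
      rw [← Real.rpow_natCast, ← Real.rpow_mul hpos.le]
      congr 1
      push_cast
      ring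
    rw [mul_pow, mul_pow, e]
    ring
  · rw [indicator_of_notMem hz, indicator_of_notMem hz]; norm_num

theorem Comp.mul1 (h : Comp E M T D) {p : ℝ} (v : ℂ) {ζ : ℂ} (hζ : ζ.re < T) :
    D.indicator (fun ζ => hh E M ζ ^ (p / 2)) ζ * D.indicator (P1 E M (p / 2) v) ζ
      = 1 / 2 * D.indicator (P1 E M p v) ζ := by
  by_cases hz : ζ ∈ D
  · rw [indicator_of_mem hz, indicator_of_mem hz, indicator_of_mem hz, P1, P1]
    have hpos := h.pos hζ hz
    have e : hh E M ζ ^ (p / 2) * hh E M ζ ^ (p / 2 - 1) = hh E M ζ ^ (p - 1) := by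
      rw [← Real.rpow_add hpos]
      congr 1
      ring
    linear_combination (p / 2 * Gd E v ζ) * e
  · rw [indicator_of_notMem hz, indicator_of_notMem hz, indicator_of_notMem hz]; norm_num

theorem Comp.cs_bound (h : Comp E M T D) {p : ℝ} (hp : 2 < p) {t : ℝ} (ht : t < T)
    (hA : 0 < Ai E M D p t) :
    Bi E M D p 1 t ^ 2 ≤ p ^ 2 * Ai E M D p t * Qi E M D p 1 t := by
  have hre : ∀ θ : ℝ, ((t : ℂ) + θ * I).re < T := by intro θ; simp [ht]
  have hX := cont_line (h.cont0 (p := p / 2) (by linarith)) ht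
  have hY := cont_line (h.cont1 (p := p / 2) (by linarith) 1) ht
  have hS : ∫ θ in (0 : ℝ)..(2 * π), D.indicator (fun ζ => hh E M ζ ^ (p / 2)) (t + θ * I) ^ 2
      = Ai E M D p t := by
    rw [Ai]; congr 1; funext θ; exact h.sq0 (hre θ)
  have hV : ∫ θ in (0 : ℝ)..(2 * π), D.indicator (P1 E M (p / 2) 1) (t + θ * I) ^ 2
      = p ^ 2 / 4 * Qi E M D p 1 t := by
    rw [Qi, ← intervalIntegral.integral_const_mul]; congr 1; funext θ; exact h.sq1 1 (hre θ)
  have hR : ∫ θ in (0 : ℝ)..(2 * π), D.indicator (fun ζ => hh E M ζ ^ (p / 2)) (t + θ * I)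
      * D.indicator (P1 E M (p / 2) 1) (t + θ * I) = 1 / 2 * Bi E M D p 1 t := by
    rw [Bi, ← intervalIntegral.integral_const_mul]; congr 1; funext θ; exact h.mul1 1 (hre θ)
  have := cs (a := 0) (b := 2 * π) (by positivity) hX hY (by rw [hS]; exact hA)
  rw [hS, hV, hR] at this
  nlinarith

theorem Comp.wirt (h : Comp E M T D) (hper : Per E D) {p a : ℝ} (hp : 2 < p) (ha : 0 < a)
    (ha2 : a < 1 / 2) {t : ℝ} (ht : t < T) {α : ℝ} (hα : (t : ℂ) + α * I ∉ D) :
    4 * a ^ 2 * Ai E M D p t ≤ p ^ 2 * Qi E M D p I t := by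
  have hre : ∀ θ : ℝ, ((t : ℂ) + θ * I).re < T := by intro θ; simp [ht]
  have hper0 := hper.line (f := fun ζ => hh E M ζ ^ (p / 2)) (fun ζ => by rw [hper.hh]) t
  have hper1 := hper.line (f := P1 E M (p / 2) I) (fun ζ => hper.P1 _ _ ζ) t
  have hy : ∀ θ : ℝ, HasDerivAt
      (fun θ : ℝ => D.indicator (fun ζ => hh E M ζ ^ (p / 2)) (t + θ * I))
      (D.indicator (P1 E M (p / 2) I) (t + θ * I)) θ := by
    intro θ
    exact shift_deriv (g := D.indicator (fun ζ => hh E M ζ ^ (p / 2)))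
      (g' := D.indicator (P1 E M (p / 2) I)) (v := I)
      (ζ := t) (s := θ) (h.deriv0 (by linarith) I (by simp [ht]))
  have h0 : D.indicator (fun ζ => hh E M ζ ^ (p / 2)) (t + α * I) = 0 := indicator_of_notMem hα _
  have h1 : D.indicator (fun ζ => hh E M ζ ^ (p / 2)) (t + (α + 2 * π : ℝ) * I) = 0 := by
    have := hper0 α
    simp only at this
    rw [this, h0]
  have hw := wirtinger ha ha2 hy (cont_line (h.cont1 (p := p / 2) (by linarith) I) ht) h0 h1
  have hS : ∫ θ in α..(α + 2 * π), D.indicator (fun ζ => hh E M ζ ^ (p / 2)) (t + θ * I) ^ 2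
      = Ai E M D p t := by
    rw [Function.Periodic.intervalIntegral_add_eq (f := fun θ : ℝ =>
      D.indicator (fun ζ => hh E M ζ ^ (p / 2)) (t + θ * I) ^ 2) (T := 2 * π) ?_ α 0, Ai, zero_add]
    · congr 1; funext θ; exact h.sq0 (hre θ)
    · intro θ
      have := hper0 θ
      simp only at this ⊢
      rw [this]
  have hV : ∫ θ in α..(α + 2 * π), D.indicator (P1 E M (p / 2) I) (t + θ * I) ^ 2
      = p ^ 2 / 4 * Qi E M D p I t := by
    rw [Function.Periodic.intervalIntegral_add_eq (f := fun θ : ℝ =>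
      D.indicator (P1 E M (p / 2) I) (t + θ * I) ^ 2) (T := 2 * π) ?_ α 0, Qi, zero_add,
      ← intervalIntegral.integral_const_mul]
    · congr 1; funext θ; exact h.sq1 I (hre θ)
    · intro θ
      have := hper1 θ
      simp only at this ⊢
      rw [this]
  rw [hS, hV] at hw
  linarith

/-- The second order differential inequality. -/
theorem Comp.ode (h : Comp E M T D) (hper : Per E D) {l : ℝ} (hl0 : 0 < l) (hl : l < 1 / 2)
    {t : ℝ} (ht : t < T) {α : ℝ} (hα : (t : ℂ) + α * I ∉ D) (hA : 0 < Ai E M D (4 - 4 * l) t) :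
    l ^ 2 * Ai E M D (4 - 4 * l) t ^ (1 / (4 - 4 * l)) ≤
      1 / (4 - 4 * l) * ((1 / (4 - 4 * l) - 1) * Ai E M D (4 - 4 * l) t ^ (1 / (4 - 4 * l) - 2)
        * Bi E M D (4 - 4 * l) 1 t ^ 2
        + Ai E M D (4 - 4 * l) t ^ (1 / (4 - 4 * l) - 1) * Ci E M D (4 - 4 * l) 1 t) := by
  set p := 4 - 4 * l with hp'
  have hp : 2 < p := by rw [hp']; linarith
  set A := Ai E M D p t with hAdef
  set B := Bi E M D p 1 t with hBdef
  have hp0 : 0 < p := by linarith
  have h1 := h.cs_bound hp ht hA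
  have h2 := h.wirt hper hp (a := √(2 * l) / 2) (by positivity) (by
    have : √(2 * l) < 1 := by
      rw [Real.sqrt_lt' one_pos]; linarith
    linarith) ht hα
  have h3 : (√(2 * l) / 2) ^ 2 = l / 2 := by
    rw [div_pow, Real.sq_sqrt (by linarith)]; ring
  rw [h3] at h2
  rw [h.C_eq hper hp ht]
  rw [← hAdef] at h1 h2
  rw [← hBdef] at h1
  set Q1 := Qi E M D p 1 t
  set Q2 := Qi E M D p I t
  -- `A^(1/p-1) = A^(1/p-2) * A`, etc.
  have e1 : A ^ (1 / p - 1) = A ^ (1 / p - 2) * A := by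
    rw [← Real.rpow_add_one hA.ne']; congr 1; ring
  have e2 : A ^ (1 / p) = A ^ (1 / p - 2) * A * A := by
    rw [← Real.rpow_add_one hA.ne', ← Real.rpow_add_one hA.ne']; congr 1; ring
  rw [e1, e2]
  set W := A ^ (1 / p - 2)
  have hW : 0 < W := by positivity
  -- numerical inequality `l p² ≤ 2 (p - 1)`
  have h4 : l * p ^ 2 ≤ 2 * (p - 1) := by
    have h5 : 0 ≤ (1 - 2 * l) * (6 - 12 * l + 8 * l ^ 2) := by
      apply mul_nonneg (by linarith)
      nlinarith [sq_nonneg (l - 3 / 4)]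
    have : 2 * (p - 1) - l * p ^ 2 = (1 - 2 * l) * (6 - 12 * l + 8 * l ^ 2) := by
      rw [hp']; ring
    linarith
  have hp1 : 0 < p - 1 := by linarith
  have hpp : 0 < p ^ 2 := by positivity
  have k1 : (p - 1) / p ^ 2 * B ^ 2 ≤ (p - 1) * A * Q1 := by
    rw [div_mul_eq_mul_div, div_le_iff₀ hpp]
    have := mul_le_mul_of_nonneg_left h1 hp1.le
    linarith
  have k2 : l ^ 2 * A ^ 2 ≤ (p - 1) * A * Q2 := by
    have k3 := mul_le_mul_of_nonneg_left h2 (mul_pos hp1 hA).le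
    have k4 : (l * A ^ 2) * (l * p ^ 2) ≤ (l * A ^ 2) * (2 * (p - 1)) :=
      mul_le_mul_of_nonneg_left h4 (by positivity)
    have k5 : (l ^ 2 * A ^ 2) * p ^ 2 ≤ ((p - 1) * A * Q2) * p ^ 2 := by linarith
    exact le_of_mul_le_mul_right k5 hpp
  have key : l ^ 2 * A ^ 2 ≤ -((p - 1) / p ^ 2 * B ^ 2) + (p - 1) * A * (Q1 + Q2) := by linarith
  have := mul_le_mul_of_nonneg_left key hW.le
  have e3 : 1 / p * ((1 / p - 1) * W * B ^ 2 + W * A * (p * (p - 1) * (Q1 + Q2)))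
      = W * (-((p - 1) / p ^ 2 * B ^ 2) + (p - 1) * A * (Q1 + Q2)) := by
    field_simp
    ring
  rw [e3]
  linarith

/-- **Carleman's estimate**: if every circle between the levels `t₀` and `t₁` meets the
complement of `D`, then `log ‖E‖ - M` is large somewhere on the circle `t₁`. -/
theorem Comp.carleman (h : Comp E M T D) (hper : Per E D) {l : ℝ} (hl0 : 0 < l) (hl : l < 1 / 2)
    {t₀ t₁ : ℝ} (h01 : t₀ ≤ t₁) (h1T : t₁ < T)
    (hz : ∀ t ∈ Icc t₀ t₁, ∃ α : ℝ, (t : ℂ) + α * I ∉ D) {w : ℝ} (hw : 0 < w)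
    (hlim : ∀ p : ℝ, 0 < p → Tendsto (Ai E M D p) atBot (𝓝 (2 * π * w ^ p))) :
    ∃ θ : ℝ, (t₁ : ℂ) + θ * I ∈ D ∧ w * Real.cosh (l * (t₁ - t₀)) ≤ hh E M (t₁ + θ * I) := by
  set p := 4 - 4 * l with hp'
  have hp : 2 < p := by rw [hp']; linarith
  have hp0 : 0 < p := by linarith
  have hd1 : ∀ t < T, HasDerivAt (Ai E M D p) (Bi E M D p 1 t) t := fun t ht =>
    h.hasDerivAt_A (by linarith) ht
  have hd2 : ∀ t < T, HasDerivAt (Bi E M D p 1) (Ci E M D p 1 t) t := fun t ht =>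
    h.hasDerivAt_B hp ht
  have hC : ∀ t < T, 0 ≤ Ci E M D p 1 t := by
    intro t ht
    rw [h.C_eq hper hp ht]
    have := Qi_nonneg h (p := p) 1 ht
    have := Qi_nonneg h (p := p) I ht
    have : 0 < p - 1 := by linarith
    positivity
  have hA0 : ∀ t < T, 0 ≤ Ai E M D p t := fun t ht => Ai_nonneg h ht
  have hwp : 0 < 2 * π * w ^ p := by positivity
  have hbd : ∀ᶠ t in atBot, Ai E M D p t ≤ 2 * π * w ^ p + 1 :=
    (hlim p hp0).eventually_le_const (by linarith)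
  -- lower bound
  have hlow : ∀ t < T, 2 * π * w ^ p ≤ Ai E M D p t := by
    intro t ht
    refine le_of_tendsto (hlim p hp0) ?_
    filter_upwards [eventually_le_atBot t] with s hs
    exact mono_of_bdd hd1 hd2 hC hA0 hbd hs ht
  have hpos : ∀ t < T, 0 < Ai E M D p t := fun t ht => lt_of_lt_of_le hwp (hlow t ht)
  have hB0 : 0 ≤ Bi E M D p 1 t₀ :=
    deriv_nonneg_of_bdd hd1 hd2 hC hA0 hbd (lt_of_le_of_lt h01 h1T)
  -- `b = A^(1/p)`
  have hb1 : ∀ t ∈ Icc t₀ t₁, HasDerivAt (fun t => Ai E M D p t ^ (1 / p))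
      (1 / p * (Ai E M D p t ^ (1 / p - 1) * Bi E M D p 1 t)) t := by
    intro t ht
    have htT : t < T := lt_of_le_of_lt ht.2 h1T
    have := (hd1 t htT).rpow_const (p := 1 / p) (Or.inl (hpos t htT).ne')
    refine this.congr_deriv ?_
    ring
  have hb2 : ∀ t ∈ Icc t₀ t₁,
      HasDerivAt (fun t => 1 / p * (Ai E M D p t ^ (1 / p - 1) * Bi E M D p 1 t))
      (1 / p * ((1 / p - 1) * Ai E M D p t ^ (1 / p - 2) * Bi E M D p 1 t ^ 2
        + Ai E M D p t ^ (1 / p - 1) * Ci E M D p 1 t)) t := by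
    intro t ht
    have htT : t < T := lt_of_le_of_lt ht.2 h1T
    have h5 := (hd1 t htT).rpow_const (p := 1 / p - 1) (Or.inl (hpos t htT).ne')
    have h6 := (h5.mul (hd2 t htT)).const_mul (1 / p)
    refine h6.congr_deriv ?_
    rw [show 1 / p - 1 - 1 = 1 / p - 2 by ring]
    ring
  have hcosh := cosh_bound (l := l) h01 hb1 hb2 (fun t ht => by
    obtain ⟨α, hα⟩ := hz t ht
    have htT : t < T := lt_of_le_of_lt ht.2 h1T
    exact h.ode hper hl0 hl htT hα (hpos t htT)) (by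
      have := hpos t₀ (lt_of_le_of_lt h01 h1T)
      positivity)
  -- maximum on the circle `t₁`
  have hcont := cont_line (h.cont0 (p := p) hp0) h1T
  obtain ⟨θ, _, hθ⟩ := (isCompact_Icc (a := (0 : ℝ)) (b := 2 * π)).exists_isMaxOn
    (nonempty_Icc.2 (by positivity)) hcont.continuousOn
  have hmax : Ai E M D p t₁ ≤ 2 * π * D.indicator (fun ζ => hh E M ζ ^ p) (t₁ + θ * I) := by
    have h7 : Ai E M D p t₁ ≤ ∫ _ in (0 : ℝ)..(2 * π),
        D.indicator (fun ζ => hh E M ζ ^ p) (t₁ + θ * I) := by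
      apply intervalIntegral.integral_mono_on (by positivity) (hcont.intervalIntegrable _ _)
        intervalIntegrable_const
      intro x hx
      exact hθ hx
    rw [intervalIntegral.integral_const, smul_eq_mul, sub_zero] at h7
    exact h7
  have hD : (t₁ : ℂ) + θ * I ∈ D := by
    by_contra hD
    rw [indicator_of_notMem hD, mul_zero] at hmax
    exact absurd (hpos t₁ h1T) (not_lt.2 hmax)
  refine ⟨θ, hD, ?_⟩
  rw [indicator_of_mem hD] at hmax
  have hhpos := h.pos (ζ := t₁ + θ * I) (by simp [h1T]) hD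
  -- combine
  have hcp : 0 < Real.cosh (l * (t₁ - t₀)) := Real.cosh_pos _
  have h8 : (2 * π * w ^ p) ^ (1 / p) * Real.cosh (l * (t₁ - t₀))
      ≤ (2 * π * hh E M (t₁ + θ * I) ^ p) ^ (1 / p) := by
    calc (2 * π * w ^ p) ^ (1 / p) * Real.cosh (l * (t₁ - t₀))
        ≤ Ai E M D p t₀ ^ (1 / p) * Real.cosh (l * (t₁ - t₀)) := by
          gcongr
          exact hlow t₀ (lt_of_le_of_lt h01 h1T)
      _ ≤ Ai E M D p t₁ ^ (1 / p) := hcosh
      _ ≤ _ := Real.rpow_le_rpow (hA0 t₁ h1T) hmax (by positivity)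
  have e5 : ∀ x : ℝ, 0 < x → (2 * π * x ^ p) ^ (1 / p) = (2 * π) ^ (1 / p) * x := by
    intro x hx
    rw [Real.mul_rpow (x := 2 * π) (by positivity) (by positivity), ← Real.rpow_mul hx.le,
      mul_one_div_cancel hp0.ne', Real.rpow_one]
  rw [e5 w hw, e5 _ hhpos, mul_assoc] at h8
  exact le_of_mul_le_mul_left h8 (by positivity)

end Pool.Agent.helper85.Path
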