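import Pool.Agent.helper85.Path.Ode

/-! Indicator functions of level components of `log ‖E‖` and their circle integrals. -/

set_option autoImplicit false

namespace Pool.Agent.helper85.Path

open Filter Set MeasureTheory intervalIntegral Complex
open scoped Topology Real

/-- Directional derivative at a shifted point. -/
theorem shift_deriv {g g' : ℂ → ℝ} {v ζ : ℂ} {s : ℝ}
    (hd : HasDerivAt (fun x : ℝ => g (ζ + s * v + x * v)) (g' (ζ + s * v)) 0) :
    HasDerivAt (fun x : ℝ => g (ζ + x * v)) (g' (ζ + s * v)) s := by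
  have h1 : HasDerivAt (fun x : ℝ => x - s) 1 s := (hasDerivAt_id s).sub_const s
  have h3 := hd.comp_of_eq s h1 (by simp)
  rw [mul_one] at h3
  refine h3.congr_of_eventuallyEq (Eventually.of_forall fun x => ?_)
  simp only [Function.comp]
  congr 1
  push_cast
  ring

/-- Differentiation of circle integrals in logarithmic polar coordinates. -/
theorem hasDerivAt_param {g g' : ℂ → ℝ} {T : ℝ} (hg : ContinuousOn g {ζ | ζ.re < T})
    (hg' : ContinuousOn g' {ζ | ζ.re < T})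
    (hd : ∀ ζ : ℂ, ζ.re < T → HasDerivAt (fun x : ℝ => g (ζ + x * 1)) (g' ζ) 0) {t : ℝ}
    (ht : t < T) :
    HasDerivAt (fun t : ℝ => ∫ θ in (0 : ℝ)..(2 * π), g (t + θ * I))
      (∫ θ in (0 : ℝ)..(2 * π), g' (t + θ * I)) t := by
  set ε := (T - t) / 2 with hε
  have hε0 : 0 < ε := by rw [hε]; linarith
  have hre : ∀ (x θ : ℝ), ((x : ℂ) + θ * I).re = x := by intro x θ; simp
  have hcont : ∀ {f : ℂ → ℝ}, ContinuousOn f {ζ | ζ.re < T} → ∀ x < T,
      Continuous fun θ : ℝ => f (x + θ * I) := by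
    intro f hf x hx
    apply hf.comp_continuous (by fun_prop)
    intro θ
    simp [hx]
  -- bound
  set K : Set ℂ := (fun p : ℝ × ℝ => (p.1 : ℂ) + p.2 * I) '' (Icc (t - ε) (t + ε) ×ˢ Icc 0 (2 * π))
  have hK : IsCompact K := (isCompact_Icc.prod isCompact_Icc).image (by fun_prop)
  have hKs : K ⊆ {ζ | ζ.re < T} := by
    rintro _ ⟨p, hp, rfl⟩
    have := hp.1.2
    simp only [mem_ofPred_eq, hre]
    linarith
  obtain ⟨B, hB⟩ := hK.exists_bound_of_continuousOn (hg'.mono hKs)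
  refine (intervalIntegral.hasDerivAt_integral_of_dominated_loc_of_deriv_le
    (F := fun (x : ℝ) (θ : ℝ) => g (x + θ * I)) (F' := fun (x : ℝ) (θ : ℝ) => g' (x + θ * I))
    (s := Ioo (t - ε) (t + ε)) (bound := fun _ => B)
    (Ioo_mem_nhds (by linarith) (by linarith)) ?_ ?_ ?_ ?_ ?_ ?_).2
  · filter_upwards [Iio_mem_nhds ht] with x hx
    exact (hcont hg x hx).aestronglyMeasurable
  · exact (hcont hg t ht).intervalIntegrable _ _
  · exact (hcont hg' t ht).aestronglyMeasurable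
  · refine Eventually.of_forall fun θ hθ x hx => hB _ ⟨(x, θ), ⟨Ioo_subset_Icc_self hx, ?_⟩, rfl⟩
    rw [uIoc_of_le (by positivity)] at hθ
    exact Ioc_subset_Icc_self hθ
  · exact intervalIntegrable_const
  · refine Eventually.of_forall fun θ _ x hx => ?_
    have h1 := hd (x + θ * I) (by rw [hre]; linarith [hx.2])
    have h2 : HasDerivAt (fun y : ℝ => g ((θ * I : ℂ) + x * 1 + y * 1)) (g' ((θ * I : ℂ) + x * 1)) 0 := by
      have e : ∀ y : ℂ, (θ * I : ℂ) + x * 1 + y = x + θ * I + y := by intro y; ring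
      have e' : (θ * I : ℂ) + x * 1 = x + θ * I := by ring
      simp only [e']
      exact h1
    have h3 := shift_deriv h2
    have e'' : ∀ y : ℝ, (θ * I : ℂ) + y * 1 = y + θ * I := by intro y; ring
    simp only [e''] at h3
    exact h3

/-- Abstract data: an entire function, a level `M ≥ 0` and a component `D` of `{log ‖E‖ > M}`
in the half-plane `re < T`. -/
structure Comp (E : ℂ → ℂ) (M T : ℝ) (D : Set ℂ) : Prop where
  diff : Differentiable ℂ E
  M0 : 0 ≤ M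
  tri : ∀ ζ : ℂ, ζ.re < T → (D ∈ 𝓝 ζ ∧ M < Real.log ‖E ζ‖) ∨ (Dᶜ ∈ 𝓝 ζ) ∨
    (E ζ ≠ 0 ∧ Real.log ‖E ζ‖ = M ∧ ζ ∉ D)

variable {E : ℂ → ℂ} {M T : ℝ} {D : Set ℂ}

theorem Comp.ne_zero (h : Comp E M T D) {ζ : ℂ} (hz : M < Real.log ‖E ζ‖) : E ζ ≠ 0 := by
  intro h0
  rw [h0, norm_zero, Real.log_zero] at hz
  exact absurd hz (not_lt.2 h.M0)

theorem Comp.cont_ind (h : Comp E M T D) {Φ : ℂ → ℝ} (h1 : ∀ ζ, E ζ ≠ 0 → ContinuousAt Φ ζ)
    (h2 : ∀ ζ, E ζ ≠ 0 → Real.log ‖E ζ‖ = M → Φ ζ = 0) :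
    ContinuousOn (D.indicator Φ) {ζ | ζ.re < T} := by
  intro ζ hζ
  apply ContinuousAt.continuousWithinAt
  rcases h.tri ζ hζ with ⟨hD, hM⟩ | hD | ⟨hE, hM, hD⟩
  · apply (h1 ζ (h.ne_zero hM)).congr
    filter_upwards [hD] with x hx
    rw [indicator_of_mem hx]
  · apply (continuousAt_const (y := (0 : ℝ))).congr
    filter_upwards [hD] with x hx
    rw [indicator_of_notMem hx]
  · have h3 := h1 ζ hE
    have h4 := h2 ζ hE hM
    rw [ContinuousAt, indicator_of_notMem hD]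
    rw [ContinuousAt, h4] at h3
    apply squeeze_zero_norm (a := fun x => ‖Φ x‖) (fun x => ?_)
    · simpa using h3.norm
    · by_cases hx : x ∈ D
      · rw [indicator_of_mem hx]
      · rw [indicator_of_notMem hx]; simp

theorem Comp.deriv_ind (h : Comp E M T D) {Φ Φ' : ℂ → ℝ} {v : ℂ}
    (h1 : ∀ ζ, E ζ ≠ 0 → HasDerivAt (fun x : ℝ => Φ (ζ + x * v)) (Φ' ζ) 0)
    (h2 : ∀ ζ, E ζ ≠ 0 → Real.log ‖E ζ‖ = M → Φ ζ = 0)
    (h3 : ∀ ζ, E ζ ≠ 0 → Real.log ‖E ζ‖ = M → Φ' ζ = 0) {ζ : ℂ} (hζ : ζ.re < T) :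
    HasDerivAt (fun x : ℝ => D.indicator Φ (ζ + x * v)) (D.indicator Φ' ζ) 0 := by
  have ht : Tendsto (fun x : ℝ => ζ + x * v) (𝓝 0) (𝓝 ζ) := by
    have : Continuous fun x : ℝ => ζ + x * v := by fun_prop
    simpa using this.tendsto 0
  rcases h.tri ζ hζ with ⟨hD, hM⟩ | hD | ⟨hE, hM, hD⟩
  · rw [indicator_of_mem (mem_of_mem_nhds hD)]
    apply (h1 ζ (h.ne_zero hM)).congr_of_eventuallyEq
    filter_upwards [ht hD] with x hx
    exact indicator_of_mem (s := D) hx _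
  · rw [indicator_of_notMem (mem_of_mem_nhds hD)]
    apply (hasDerivAt_const (0 : ℝ) (0 : ℝ)).congr_of_eventuallyEq
    filter_upwards [ht hD] with x hx
    exact indicator_of_notMem (s := D) hx _
  · rw [indicator_of_notMem hD]
    have h4 := h1 ζ hE
    rw [h3 ζ hE hM, hasDerivAt_iff_isLittleO] at h4
    rw [hasDerivAt_iff_isLittleO]
    simp only [ofReal_zero, zero_mul, add_zero, smul_zero, sub_zero, h2 ζ hE hM,
      indicator_of_notMem hD] at h4 ⊢
    refine Asymptotics.IsBigO.trans_isLittleO ?_ h4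
    apply Asymptotics.IsBigO.of_bound 1
    filter_upwards with x
    rw [one_mul]
    by_cases hx : (ζ + x * v) ∈ D
    · rw [indicator_of_mem hx]
    · rw [indicator_of_notMem hx]; simp

/-- The logarithmic derivative. -/
noncomputable def Ld (E : ℂ → ℂ) (ζ : ℂ) : ℂ := deriv E ζ / E ζ

theorem Ld_analytic (hE : Differentiable ℂ E) {ζ : ℂ} (h : E ζ ≠ 0) : AnalyticAt ℂ (Ld E) ζ := by
  have h1 : AnalyticAt ℂ E ζ := hE.analyticAt ζ
  exact h1.deriv.div h1 h

/-- Derivative of `log ‖E‖` along a line. -/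
theorem hasDerivAt_log_norm (hE : Differentiable ℂ E) {ζ v : ℂ} (h : E ζ ≠ 0) :
    HasDerivAt (fun x : ℝ => Real.log ‖E (ζ + x * v)‖) ((v * Ld E ζ).re) 0 := by
  have h1 : HasDerivAt (fun x : ℝ => E (ζ + x * v)) (deriv E ζ * v) 0 := by
    have h2 : HasDerivAt E (deriv E ζ) (ζ + (0 : ℝ) * v) := by
      simpa using (hE ζ).hasDerivAt
    have h3 : HasDerivAt (fun x : ℝ => ζ + x * v) v 0 := by
      have : HasDerivAt (fun x : ℝ => (x : ℂ)) 1 0 := Complex.ofRealCLM.hasDerivAt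
      simpa using (this.mul_const v).const_add ζ
    exact HasDerivAt.comp (0 : ℝ) h2 h3
  have hre : HasDerivAt (fun x : ℝ => (E (ζ + x * v)).re) (deriv E ζ * v).re 0 := by
    exact Complex.reCLM.hasFDerivAt.comp_hasDerivAt (0 : ℝ) h1
  have him : HasDerivAt (fun x : ℝ => (E (ζ + x * v)).im) (deriv E ζ * v).im 0 := by
    exact Complex.imCLM.hasFDerivAt.comp_hasDerivAt (0 : ℝ) h1
  have hn : HasDerivAt (fun x : ℝ => normSq (E (ζ + x * v)))
      (2 * ((E ζ).re * (deriv E ζ * v).re + (E ζ).im * (deriv E ζ * v).im)) 0 := by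
    have := (hre.mul hre).add (him.mul him)
    simp only [ofReal_zero, zero_mul, add_zero] at this
    refine (this.congr_deriv (by ring)).congr_of_eventuallyEq (Eventually.of_forall fun x => ?_)
    simp [normSq_apply]
  have hpos : 0 < normSq (E ζ) := normSq_pos.2 h
  have hlog := hn.log (by simpa using hpos.ne')
  have e : (fun x : ℝ => Real.log ‖E (ζ + x * v)‖)
      = fun x : ℝ => (1 / 2) * Real.log (normSq (E (ζ + x * v))) := by
    funext x
    rw [normSq_eq_norm_sq, Real.log_pow]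
    push_cast
    ring
  rw [e]
  refine (hlog.const_mul (1 / 2)).congr_deriv ?_
  simp only [ofReal_zero, zero_mul, add_zero, Ld]
  rw [show v * (deriv E ζ / E ζ) = deriv E ζ * v / E ζ by ring, Complex.div_re]
  ring

/-- The function `log ‖E‖ - M`. -/
noncomputable def hh (E : ℂ → ℂ) (M : ℝ) (ζ : ℂ) : ℝ := Real.log ‖E ζ‖ - M

/-- Directional derivative of `log ‖E‖`. -/
noncomputable def Gd (E : ℂ → ℂ) (v ζ : ℂ) : ℝ := (v * Ld E ζ).re

theorem hasDerivAt_hh (hE : Differentiable ℂ E) {ζ v : ℂ} (h : E ζ ≠ 0) :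
    HasDerivAt (fun x : ℝ => hh E M (ζ + x * v)) (Gd E v ζ) 0 :=
  (hasDerivAt_log_norm hE h).sub_const M

theorem hasDerivAt_Gd (hE : Differentiable ℂ E) {ζ v : ℂ} (h : E ζ ≠ 0) :
    HasDerivAt (fun x : ℝ => Gd E v (ζ + x * v)) (v * (v * deriv (Ld E) ζ)).re 0 := by
  have h1 : HasDerivAt (fun x : ℝ => v * Ld E (ζ + x * v)) (v * (deriv (Ld E) ζ * v)) 0 := by
    have h2 : HasDerivAt (Ld E) (deriv (Ld E) ζ) (ζ + (0 : ℝ) * v) := by
      simpa using (Ld_analytic hE h).differentiableAt.hasDerivAt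
    have h3 : HasDerivAt (fun x : ℝ => ζ + x * v) v 0 := by
      have : HasDerivAt (fun x : ℝ => (x : ℂ)) 1 0 := Complex.ofRealCLM.hasDerivAt
      simpa using (this.mul_const v).const_add ζ
    exact (HasDerivAt.comp (0 : ℝ) h2 h3).const_mul v
  rw [mul_comm v (deriv (Ld E) ζ)]
  exact Complex.reCLM.hasFDerivAt.comp_hasDerivAt (0 : ℝ) h1

theorem continuousAt_hh (hE : Differentiable ℂ E) {ζ : ℂ} (h : E ζ ≠ 0) :
    ContinuousAt (hh E M) ζ := by
  have : ContinuousAt (fun z => ‖E z‖) ζ := hE.continuous.continuousAt.norm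
  exact (this.log (by simpa using h)).sub continuousAt_const

theorem continuousAt_Gd (hE : Differentiable ℂ E) {ζ v : ℂ} (h : E ζ ≠ 0) :
    ContinuousAt (Gd E v) ζ := by
  have : ContinuousAt (Ld E) ζ := (Ld_analytic hE h).continuousAt
  exact Complex.continuous_re.continuousAt.comp (continuousAt_const.mul this)

theorem continuousAt_dLd (hE : Differentiable ℂ E) {ζ v : ℂ} (h : E ζ ≠ 0) :
    ContinuousAt (fun ζ => (v * (v * deriv (Ld E) ζ)).re) ζ := by
  have : ContinuousAt (deriv (Ld E)) ζ := (Ld_analytic hE h).deriv.continuousAt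
  exact Complex.continuous_re.continuousAt.comp (continuousAt_const.mul (continuousAt_const.mul this))

theorem hasDerivAt_rpow_hh (hE : Differentiable ℂ E) {ζ v : ℂ} (h : E ζ ≠ 0) {p : ℝ} (hp : 1 ≤ p) :
    HasDerivAt (fun x : ℝ => hh E M (ζ + x * v) ^ p) (p * hh E M ζ ^ (p - 1) * Gd E v ζ) 0 := by
  have h1 := hasDerivAt_hh (M := M) hE (v := v) h
  have h2 := h1.rpow_const (p := p) (Or.inr hp)
  refine h2.congr_deriv ?_
  simp only [ofReal_zero, zero_mul, add_zero]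
  ring

theorem continuousAt_rpow_hh (hE : Differentiable ℂ E) {ζ : ℂ} (h : E ζ ≠ 0) {p : ℝ} (hp : 0 ≤ p) :
    ContinuousAt (fun z => hh E M z ^ p) ζ :=
  (continuousAt_hh hE h).rpow_const (Or.inr hp)

/-- first and second directional derivatives of `hh ^ p` -/
noncomputable def P1 (E : ℂ → ℂ) (M p : ℝ) (v ζ : ℂ) : ℝ := p * hh E M ζ ^ (p - 1) * Gd E v ζ

noncomputable def P2 (E : ℂ → ℂ) (M p : ℝ) (v ζ : ℂ) : ℝ :=
  p * ((p - 1) * hh E M ζ ^ (p - 2) * Gd E v ζ ^ 2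
    + hh E M ζ ^ (p - 1) * (v * (v * deriv (Ld E) ζ)).re)

theorem hasDerivAt_P1 (hE : Differentiable ℂ E) {ζ v : ℂ} (h : E ζ ≠ 0) {p : ℝ} (hp : 2 ≤ p) :
    HasDerivAt (fun x : ℝ => P1 E M p v (ζ + x * v)) (P2 E M p v ζ) 0 := by
  have h1 := (hasDerivAt_rpow_hh (M := M) hE (v := v) h (p := p - 1) (by linarith)).const_mul p
  have h2 := h1.mul (hasDerivAt_Gd hE (v := v) h)
  refine h2.congr_deriv ?_
  simp only [ofReal_zero, zero_mul, add_zero, P2]
  rw [show p - 1 - 1 = p - 2 by ring]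
  ring

theorem zero_rpow_hh {ζ : ℂ} {p : ℝ} (hp : 0 < p) (h : Real.log ‖E ζ‖ = M) :
    hh E M ζ ^ p = 0 := by
  rw [hh, h, sub_self, Real.zero_rpow hp.ne']

theorem P1_zero {ζ v : ℂ} {p : ℝ} (hp : 1 < p) (h : Real.log ‖E ζ‖ = M) : P1 E M p v ζ = 0 := by
  rw [P1, zero_rpow_hh (by linarith) h]; ring

theorem P2_zero {ζ v : ℂ} {p : ℝ} (hp : 2 < p) (h : Real.log ‖E ζ‖ = M) : P2 E M p v ζ = 0 := by
  rw [P2, zero_rpow_hh (by linarith) h, zero_rpow_hh (by linarith) h]; ring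

theorem continuousAt_P1 (hE : Differentiable ℂ E) {ζ v : ℂ} (h : E ζ ≠ 0) {p : ℝ} (hp : 1 ≤ p) :
    ContinuousAt (P1 E M p v) ζ :=
  (continuousAt_const.mul (continuousAt_rpow_hh hE h (by linarith))).mul (continuousAt_Gd hE h)

theorem continuousAt_P2 (hE : Differentiable ℂ E) {ζ v : ℂ} (h : E ζ ≠ 0) {p : ℝ} (hp : 2 ≤ p) :
    ContinuousAt (P2 E M p v) ζ := by
  apply continuousAt_const.mul
  apply ContinuousAt.add
  · exact (continuousAt_const.mul (continuousAt_rpow_hh hE h (by linarith))).mul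
      ((continuousAt_Gd hE h).pow 2)
  · exact (continuousAt_rpow_hh hE h (by linarith)).mul (continuousAt_dLd hE h)

variable (h : Comp E M T D)
include h

theorem Comp.cont0 {p : ℝ} (hp : 0 < p) :
    ContinuousOn (D.indicator fun ζ => hh E M ζ ^ p) {ζ | ζ.re < T} :=
  h.cont_ind (fun _ hE => continuousAt_rpow_hh h.diff hE hp.le) fun _ _ hM => zero_rpow_hh hp hM

theorem Comp.cont1 {p : ℝ} (hp : 1 < p) (v : ℂ) :
    ContinuousOn (D.indicator (P1 E M p v)) {ζ | ζ.re < T} :=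
  h.cont_ind (fun _ hE => continuousAt_P1 h.diff hE hp.le) fun _ _ hM => P1_zero hp hM

theorem Comp.cont2 {p : ℝ} (hp : 2 < p) (v : ℂ) :
    ContinuousOn (D.indicator (P2 E M p v)) {ζ | ζ.re < T} :=
  h.cont_ind (fun _ hE => continuousAt_P2 h.diff hE hp.le) fun _ _ hM => P2_zero hp hM

theorem Comp.cont3 {p : ℝ} (hp : 2 < p) (v : ℂ) :
    ContinuousOn (D.indicator fun ζ => hh E M ζ ^ (p - 2) * Gd E v ζ ^ 2) {ζ | ζ.re < T} :=
  h.cont_ind (fun _ hE => (continuousAt_rpow_hh h.diff hE (by linarith)).mul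
    ((continuousAt_Gd h.diff hE).pow 2)) fun _ _ hM => by
      rw [zero_rpow_hh (by linarith) hM, zero_mul]

theorem Comp.deriv0 {p : ℝ} (hp : 1 < p) (v : ℂ) {ζ : ℂ} (hζ : ζ.re < T) :
    HasDerivAt (fun x : ℝ => D.indicator (fun ζ => hh E M ζ ^ p) (ζ + x * v))
      (D.indicator (P1 E M p v) ζ) 0 :=
  h.deriv_ind (fun _ hE => hasDerivAt_rpow_hh h.diff hE hp.le)
    (fun _ _ hM => zero_rpow_hh (by linarith) hM) (fun _ _ hM => P1_zero hp hM) hζ

theorem Comp.deriv1 {p : ℝ} (hp : 2 < p) (v : ℂ) {ζ : ℂ} (hζ : ζ.re < T) :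
    HasDerivAt (fun x : ℝ => D.indicator (P1 E M p v) (ζ + x * v))
      (D.indicator (P2 E M p v) ζ) 0 :=
  h.deriv_ind (fun _ hE => hasDerivAt_P1 h.diff hE hp.le)
    (fun _ _ hM => P1_zero (by linarith) hM) (fun _ _ hM => P2_zero hp hM) hζ

end Pool.Agent.helper85.Path
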