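import Pool.Agent.helper85.Path.Main

/-! The path, given the two topological facts as hypotheses-free lemmas. -/

set_option autoImplicit false

namespace Pool.Agent.helper85.Path

open Filter Set
open scoped Topology

variable {F : ℂ → ℂ}

/-- The main path theorem for entire functions. -/
theorem main_path
    (joinedIn_diff_countable : ∀ {U S : Set ℂ}, IsOpen U → IsPreconnected U → S.Countable →
      ∀ {a b : ℂ}, a ∈ U \ S → b ∈ U \ S → JoinedIn (U \ S) a b)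
    (concat : ∀ (X : ℕ → Set ℂ) (z : ℕ → ℂ), (∀ n, JoinedIn (X n) (z n) (z (n + 1))) →
      ∃ γ : ℝ → ℂ, Continuous γ ∧ ∀ n : ℕ, ∀ t : ℝ, (n : ℝ) ≤ t → t ≤ n + 1 → γ t ∈ X n)
    (hF : Differentiable ℂ F) {κ ν : ℝ} (hκ0 : 0 < κ) (hκ : κ < 1 / 2) (hν : 1 / 2 < ν)
    (hbig : ∀ᶠ r : ℝ in atTop, ∃ z : ℂ, ‖z‖ = r ∧ Real.exp (r ^ ν) ≤ ‖F z‖)
    {S : Set ℂ} (hS : S.Countable) :
    ∃ γ : ℝ → ℂ, Continuous γ ∧ Tendsto (fun t => ‖γ t‖) atTop atTop ∧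
      ∀ t : ℝ, 0 ≤ t → γ t ∉ S ∧ Real.exp (‖γ t‖ ^ κ) ≤ ‖F (γ t)‖ := by
  obtain ⟨K, Λ, R, hK1, hΛ1, hR0, hKΛ, hstart, hstep⟩ := step hF hκ0 hκ hν hbig
  have hdense : Dense Sᶜ := hS.dense_compl ℝ
  -- the set of good points is open
  have hgo : IsOpen {z : ℂ | K * ‖z‖ ^ κ < Real.log ‖F z‖} := by
    rw [isOpen_iff_mem_nhds]
    intro z hz
    have hz' : K * ‖z‖ ^ κ < Real.log ‖F z‖ := hz
    have h0 : F z ≠ 0 := ne_zero_of_log (by positivity) hz'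
    have c1 : ContinuousAt (fun z : ℂ => Real.log ‖F z‖) z :=
      (hF z).continuousAt.norm.log (norm_ne_zero_iff.2 h0)
    have c2 : ContinuousAt (fun z : ℂ => K * ‖z‖ ^ κ) z :=
      continuousAt_const.mul (continuousAt_id.norm.rpow_const (Or.inr hκ0.le))
    exact c2.eventually_lt c1 hz'
  -- the type of states
  let T := {z : ℂ // z ∉ S ∧ R ≤ ‖z‖ ∧ K * ‖z‖ ^ κ < Real.log ‖F z‖}
  -- initial state
  have hinit : Nonempty T := by
    obtain ⟨z, hz1, hz2⟩ := hstart (R + 1) (by linarith)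
    have ho : IsOpen ({z : ℂ | K * ‖z‖ ^ κ < Real.log ‖F z‖} ∩ {z : ℂ | R < ‖z‖}) :=
      hgo.inter (isOpen_lt continuous_const continuous_norm)
    have hne : ({z : ℂ | K * ‖z‖ ^ κ < Real.log ‖F z‖} ∩ {z : ℂ | R < ‖z‖}).Nonempty := by
      refine ⟨z, ?_, ?_⟩
      · show K * ‖z‖ ^ κ < Real.log ‖F z‖
        rw [hz1]; exact hz2
      · show R < ‖z‖
        rw [hz1]; linarith
    obtain ⟨w, hw1, hw2⟩ := hdense.inter_open_nonempty _ ho hne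
    exact ⟨⟨w, hw2, le_of_lt hw1.2, hw1.1⟩⟩
  -- the step
  have hnext : ∀ c : T, ∃ w : T, 3 / 2 * ‖c.1‖ ≤ ‖w.1‖ ∧
      w.1 ∈ DS F c.1 (Λ * ‖c.1‖) (((Λ + 1) * ‖c.1‖) ^ κ) := by
    rintro ⟨c, hcS, hcR, hc⟩
    obtain ⟨z, hz1, hz2, hz3⟩ := hstep c hcR hc
    have hc0 : 0 < ‖c‖ := by linarith
    have hM : 0 ≤ ((Λ + 1) * ‖c‖) ^ κ := by positivity
    have ho : IsOpen ({z : ℂ | K * ‖z‖ ^ κ < Real.log ‖F z‖} ∩ {z : ℂ | 3 / 2 * ‖c‖ < ‖z‖} ∩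
        DS F c (Λ * ‖c‖) (((Λ + 1) * ‖c‖) ^ κ)) :=
      (hgo.inter (isOpen_lt continuous_const continuous_norm)).inter (DS_open hF hM)
    have hne : ({z : ℂ | K * ‖z‖ ^ κ < Real.log ‖F z‖} ∩ {z : ℂ | 3 / 2 * ‖c‖ < ‖z‖} ∩
        DS F c (Λ * ‖c‖) (((Λ + 1) * ‖c‖) ^ κ)).Nonempty := by
      refine ⟨z, ⟨hz3, ?_⟩, hz1⟩
      show 3 / 2 * ‖c‖ < ‖z‖
      linarith
    obtain ⟨w, hw1, hw2⟩ := hdense.inter_open_nonempty _ ho hne
    have hw3 : 3 / 2 * ‖c‖ < ‖w‖ := hw1.1.2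
    exact ⟨⟨w, hw2, by linarith, hw1.1.1⟩, hw3.le, hw1.2⟩
  choose nx hnx1 hnx2 using hnext
  let p : ℕ → T := fun n => Nat.rec hinit.some (fun _ q => nx q) n
  have hp : ∀ n, p (n + 1) = nx (p n) := fun n => rfl
  set X : ℕ → Set ℂ := fun n => DS F (p n).1 (Λ * ‖(p n).1‖) (((Λ + 1) * ‖(p n).1‖) ^ κ) \ S with hX
  have hpos : ∀ n, 0 < ‖(p n).1‖ := fun n => lt_of_lt_of_le hR0 (p n).2.2.1
  have hgrow : ∀ n, R * (3 / 2) ^ n ≤ ‖(p n).1‖ := by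
    intro n
    induction n with
    | zero => simpa using (p 0).2.2.1
    | succ n ih =>
      have h1 := hnx1 (p n)
      rw [← hp n] at h1
      calc R * (3 / 2) ^ (n + 1) = 3 / 2 * (R * (3 / 2) ^ n) := by ring
        _ ≤ 3 / 2 * ‖(p n).1‖ := by gcongr
        _ ≤ _ := h1
  have hjoin : ∀ n, JoinedIn (X n) (p n).1 (p (n + 1)).1 := by
    intro n
    have hM : 0 ≤ ((Λ + 1) * ‖(p n).1‖) ^ κ := by
      have := hpos n
      positivity
    refine joinedIn_diff_countable (DS_open hF hM) isPreconnected_connectedComponentIn hS ?_ ?_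
    · refine ⟨center_mem (by have := hpos n; positivity) ?_, (p n).2.1⟩
      rw [Real.mul_rpow (by linarith) (norm_nonneg _)]
      refine lt_of_le_of_lt ?_ (p n).2.2.2
      gcongr
    · refine ⟨?_, (p (n + 1)).2.1⟩
      rw [hp n]
      exact hnx2 (p n)
  obtain ⟨γ, hγc, hγ⟩ := concat X (fun n => (p n).1) hjoin
  -- properties of points of `X n`
  have hprop : ∀ n, ∀ z ∈ X n, z ∉ S ∧ ‖z‖ ≤ (Λ + 1) * ‖(p n).1‖ ∧
      ((Λ + 1) * ‖(p n).1‖) ^ κ < Real.log ‖F z‖ := by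
    intro n z hz
    have h1 := DS_sub hz.1
    have h2 : z ∈ Metric.ball (p n).1 (Λ * ‖(p n).1‖) := h1.1
    have h3 : ‖z - (p n).1‖ < Λ * ‖(p n).1‖ := by simpa [dist_eq_norm] using h2
    refine ⟨hz.2, ?_, h1.2⟩
    have : ‖z‖ ≤ ‖z - (p n).1‖ + ‖(p n).1‖ := by
      calc ‖z‖ = ‖(z - (p n).1) + (p n).1‖ := by rw [sub_add_cancel]
        _ ≤ _ := norm_add_le _ _
    linarith
  have hfloor : ∀ t : ℝ, 0 ≤ t → γ t ∈ X ⌊t⌋₊ := by
    intro t ht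
    exact hγ _ t (Nat.floor_le ht) (Nat.lt_floor_add_one t).le
  have hlog : ∀ t : ℝ, 0 ≤ t → ‖γ t‖ ^ κ < Real.log ‖F (γ t)‖ := by
    intro t ht
    obtain ⟨-, h1, h2⟩ := hprop _ _ (hfloor t ht)
    exact lt_of_le_of_lt (Real.rpow_le_rpow (norm_nonneg _) h1 hκ0.le) h2
  refine ⟨γ, hγc, ?_, ?_⟩
  · rw [tendsto_atTop]
    intro B
    -- bound of F on the ball of radius B
    obtain ⟨C, hC⟩ := (isCompact_closedBall (0 : ℂ) B).exists_bound_of_continuousOn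
      (hF.continuous.continuousOn)
    have hlim : Tendsto (fun t : ℝ => (R * (3 / 2) ^ ⌊t⌋₊) ^ κ) atTop atTop := by
      refine (tendsto_rpow_atTop hκ0).comp ?_
      refine Tendsto.const_mul_atTop hR0 ?_
      exact (tendsto_pow_atTop_atTop_of_one_lt (by norm_num)).comp tendsto_nat_floor_atTop
    filter_upwards [hlim.eventually_gt_atTop (Real.log (max C 1)), eventually_ge_atTop 0] with t ht ht0
    by_contra hlt
    push Not at hlt
    obtain ⟨-, h1, h2⟩ := hprop _ _ (hfloor t ht0)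
    have h3 : γ t ∈ Metric.closedBall (0 : ℂ) B := by
      rw [mem_closedBall_zero_iff]; exact hlt.le
    have h4 := hC _ h3
    have h5 : F (γ t) ≠ 0 := ne_zero_of_log (by positivity) h2
    have h6 : Real.log ‖F (γ t)‖ ≤ Real.log (max C 1) :=
      Real.log_le_log (norm_pos_iff.2 h5) (h4.trans (le_max_left _ _))
    have h7 : (R * (3 / 2) ^ ⌊t⌋₊) ^ κ ≤ ((Λ + 1) * ‖(p ⌊t⌋₊).1‖) ^ κ := by
      have := hgrow ⌊t⌋₊
      have h8 := hpos ⌊t⌋₊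
      refine Real.rpow_le_rpow (by positivity) ?_ hκ0.le
      nlinarith
    linarith
  · intro t ht
    obtain ⟨h1, h2, h3⟩ := hprop _ _ (hfloor t ht)
    refine ⟨h1, ?_⟩
    have h5 : F (γ t) ≠ 0 := ne_zero_of_log (by positivity) h3
    exact (Real.le_log_iff_exp_le (norm_pos_iff.2 h5)).1 (hlog t ht).le

end Pool.Agent.helper85.Path
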