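import Pool.Agent.helper85.Path.Step

/-! The inductive step and the path. -/

set_option autoImplicit false

namespace Pool.Agent.helper85.Path

open Filter Set MeasureTheory Complex
open scoped Topology Real

variable {F : ℂ → ℂ}

theorem half_exp_le_cosh (x : ℝ) : Real.exp x / 2 ≤ Real.cosh x := by
  rw [Real.cosh_eq]
  have := Real.exp_pos (-x)
  linarith

/-- The inductive step. -/
theorem step (hF : Differentiable ℂ F) {κ ν : ℝ} (hκ0 : 0 < κ) (hκ : κ < 1 / 2) (hν : 1 / 2 < ν)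
    (hbig : ∀ᶠ r : ℝ in atTop, ∃ z : ℂ, ‖z‖ = r ∧ Real.exp (r ^ ν) ≤ ‖F z‖) :
    ∃ K Λ R : ℝ, 1 ≤ K ∧ 1 ≤ Λ ∧ 0 < R ∧ (Λ + 1) ^ κ ≤ K ∧
      (∀ r : ℝ, R ≤ r → ∃ z : ℂ, ‖z‖ = r ∧ K * r ^ κ < Real.log ‖F z‖) ∧
      ∀ c : ℂ, R ≤ ‖c‖ → K * ‖c‖ ^ κ < Real.log ‖F c‖ →
        ∃ z ∈ DS F c (Λ * ‖c‖) (((Λ + 1) * ‖c‖) ^ κ), 2 * ‖c‖ ≤ ‖z‖ ∧
          K * ‖z‖ ^ κ < Real.log ‖F z‖ := by
  set l := (κ + 1 / 2) / 2 with hl
  have hl1 : κ < l := by rw [hl]; linarith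
  have hl2 : l < 1 / 2 := by rw [hl]; linarith
  have hl0 : 0 < l := by linarith
  -- choice of Λ
  obtain ⟨Λ, hΛ1, hΛ2⟩ : ∃ Λ : ℝ, 12 ≤ Λ ∧ 12 ≤ Λ ^ (l - κ) := by
    have h1 := (tendsto_rpow_atTop (by linarith : 0 < l - κ)).eventually_ge_atTop 12
    obtain ⟨Λ, h2, h3⟩ := ((eventually_ge_atTop (12 : ℝ)).and h1).exists
    exact ⟨Λ, h2, h3⟩
  have hΛ0 : 0 < Λ := by linarith
  set K := 2 * (Λ + 1) ^ κ with hK
  have hΛκ : 1 ≤ (Λ + 1) ^ κ := Real.one_le_rpow (by linarith) hκ0.le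
  have hK1 : 1 ≤ K := by rw [hK]; linarith
  -- choice of R
  obtain ⟨R, hR0, hR⟩ : ∃ R : ℝ, 1 ≤ R ∧ ∀ r ≥ R, K * 2 ^ κ < r ^ (ν - κ) ∧
      ∃ z : ℂ, ‖z‖ = r ∧ Real.exp (r ^ ν) ≤ ‖F z‖ := by
    have h1 := (tendsto_rpow_atTop (by linarith : 0 < ν - κ)).eventually_gt_atTop (K * 2 ^ κ)
    obtain ⟨R, hR⟩ := eventually_atTop.1 (h1.and hbig)
    exact ⟨max R 1, le_max_right _ _, fun r hr => hR r (le_trans (le_max_left _ _) hr)⟩
  have hkey : ∀ r ≥ R, K * (2 * r) ^ κ < r ^ ν := by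
    intro r hr
    have hr0 : 0 < r := by linarith
    have h1 := (hR r hr).1
    rw [Real.mul_rpow (by norm_num) hr0.le, ← mul_assoc]
    calc K * 2 ^ κ * r ^ κ < r ^ (ν - κ) * r ^ κ := by gcongr
      _ = r ^ ν := by rw [← Real.rpow_add hr0]; congr 1; ring
  refine ⟨K, Λ, R, hK1, by linarith, by linarith, by rw [hK]; linarith, ?_, ?_⟩
  · intro r hr
    have hr0 : 0 < r := by linarith
    obtain ⟨z, hz1, hz2⟩ := (hR r hr).2
    refine ⟨z, hz1, ?_⟩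
    have hFz : 0 < ‖F z‖ := lt_of_lt_of_le (Real.exp_pos _) hz2
    have h1 : r ^ ν ≤ Real.log ‖F z‖ := (Real.le_log_iff_exp_le hFz).2 hz2
    have h2 := hkey r hr
    have h3 : K * r ^ κ ≤ K * (2 * r) ^ κ := by gcongr; linarith
    linarith
  intro c hcR hc
  set r := ‖c‖ with hr
  have hr0 : 0 < r := by linarith
  have hM0 : 0 ≤ ((Λ + 1) * r) ^ κ := by positivity
  have hMr : ((Λ + 1) * r) ^ κ = (Λ + 1) ^ κ * r ^ κ := Real.mul_rpow (by linarith) hr0.le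
  have hrκ : 0 < r ^ κ := by positivity
  have hcM : ((Λ + 1) * r) ^ κ < Real.log ‖F c‖ := by
    rw [hMr]
    refine lt_of_le_of_lt ?_ hc
    rw [hK]
    nlinarith
  have hρ : Λ * r / 2 < Λ * r := by
    have : 0 < Λ * r := by positivity
    linarith
  have h3 : 3 * r ≤ Λ * r / 2 := by nlinarith
  rcases dichotomy hF hM0 hcM hl0 hl2 (s₀ := 3 * r) (s₁ := Λ * r / 2) (by positivity) h3 hρ with
    ⟨s, hs, hsub⟩ | ⟨z, hzD, hz1, hz2⟩
  · -- a full circle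
    have hs0 : 0 < s := by linarith [hs.1]
    have hsr : R ≤ s - r := by linarith [hs.1]
    obtain ⟨z1, hz1, hz1'⟩ := (hR (s - r) hsr).2
    have hz1c : z1 ∈ closure (Metric.ball c s) := by
      rw [closure_ball c hs0.ne', mem_closedBall_iff_norm]
      calc ‖z1 - c‖ ≤ ‖z1‖ + ‖c‖ := norm_sub_le _ _
        _ = s := by rw [hz1]; ring
    obtain ⟨z, hzf, hzmax⟩ := Complex.exists_mem_frontier_isMaxOn_norm (f := F) (U := Metric.ball c s)
      Metric.isBounded_ball ⟨c, Metric.mem_ball_self hs0⟩ hF.diffContOnCl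
    rw [frontier_ball c hs0.ne'] at hzf
    have hle : ‖F z1‖ ≤ ‖F z‖ := hzmax hz1c
    have hzc : ‖z - c‖ = s := by simpa [dist_eq_norm] using hzf
    refine ⟨z, hsub hzf, ?_, ?_⟩
    · have : ‖z - c‖ ≤ ‖z‖ + ‖c‖ := norm_sub_le _ _
      rw [hzc] at this
      linarith [hs.1]
    · have h4 : Real.exp ((s - r) ^ ν) ≤ ‖F z‖ := hz1'.trans hle
      have hFz : 0 < ‖F z‖ := lt_of_lt_of_le (Real.exp_pos _) h4
      have h5 : (s - r) ^ ν ≤ Real.log ‖F z‖ := (Real.le_log_iff_exp_le hFz).2 h4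
      have h6 := hkey (s - r) hsr
      have h7 : ‖z‖ ≤ 2 * (s - r) := by
        have : ‖z‖ ≤ ‖z - c‖ + ‖c‖ := by
          calc ‖z‖ = ‖(z - c) + c‖ := by rw [sub_add_cancel]
            _ ≤ _ := norm_add_le _ _
        rw [hzc] at this
        linarith [hs.1]
      have h8 : K * ‖z‖ ^ κ ≤ K * (2 * (s - r)) ^ κ := by gcongr
      linarith
  · -- growth
    have hzr : ‖z‖ ≤ Λ * r := by
      have : ‖z‖ ≤ ‖z - c‖ + ‖c‖ := by
        calc ‖z‖ = ‖(z - c) + c‖ := by rw [sub_add_cancel]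
          _ ≤ _ := norm_add_le _ _
      rw [hz1] at this
      nlinarith
    refine ⟨z, hzD, ?_, ?_⟩
    · have : ‖z - c‖ ≤ ‖z‖ + ‖c‖ := norm_sub_le _ _
      rw [hz1] at this
      nlinarith
    · have e1 : Real.log (Λ * r / 2) - Real.log (3 * r) = Real.log (Λ / 6) := by
        rw [← Real.log_div (by positivity) (by positivity)]
        congr 1
        field_simp
        norm_num
      rw [e1] at hz2
      have h6 : (0 : ℝ) < Λ / 6 := by positivity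
      have h7 : (Λ / 6) ^ l / 2 ≤ Real.cosh (l * Real.log (Λ / 6)) := by
        rw [Real.rpow_def_of_pos h6, mul_comm (Real.log _)]
        exact half_exp_le_cosh _
      have h8 : 4 * Λ ^ κ ≤ (Λ / 6) ^ l := by
        have h9 : (6 : ℝ) ^ l ≤ 3 := by
          calc (6 : ℝ) ^ l ≤ 6 ^ (1 / 2 : ℝ) := Real.rpow_le_rpow_of_exponent_le (by norm_num) hl2.le
            _ = √6 := by rw [Real.sqrt_eq_rpow]
            _ ≤ 3 := by rw [Real.sqrt_le_left (by norm_num)]; norm_num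
        rw [Real.div_rpow hΛ0.le (by norm_num), le_div_iff₀ (by positivity)]
        calc 4 * Λ ^ κ * 6 ^ l ≤ 4 * Λ ^ κ * 3 := by gcongr
          _ = 12 * Λ ^ κ := by ring
          _ ≤ Λ ^ (l - κ) * Λ ^ κ := by gcongr
          _ = Λ ^ l := by rw [← Real.rpow_add hΛ0]; congr 1; ring
      have h9 : 2 * Λ ^ κ ≤ Real.cosh (l * Real.log (Λ / 6)) := by linarith
      have h10 : (Λ + 1) ^ κ * r ^ κ < Real.log ‖F c‖ - ((Λ + 1) * r) ^ κ := by
        rw [hMr]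
        have : K * r ^ κ = (Λ + 1) ^ κ * r ^ κ + (Λ + 1) ^ κ * r ^ κ := by rw [hK]; ring
        linarith
      have hpos : 0 < (Λ + 1) ^ κ * r ^ κ := by positivity
      have h11 : (Λ + 1) ^ κ * r ^ κ * (2 * Λ ^ κ)
          < (Real.log ‖F c‖ - ((Λ + 1) * r) ^ κ) * Real.cosh (l * Real.log (Λ / 6)) := by
        apply mul_lt_mul h10 h9 (by positivity) (by linarith)
      have h12 : K * ‖z‖ ^ κ ≤ (Λ + 1) ^ κ * r ^ κ * (2 * Λ ^ κ) := by
        calc K * ‖z‖ ^ κ ≤ K * (Λ * r) ^ κ := by gcongr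
          _ = _ := by rw [Real.mul_rpow hΛ0.le hr0.le, hK]; ring
      have h13 : Real.log ‖F z‖ - ((Λ + 1) * r) ^ κ ≤ Real.log ‖F z‖ := by linarith
      linarith

end Pool.Agent.helper85.Path
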