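import Mathlib

/-! One-dimensional tools: a Wirtinger inequality, convexity on a left half-line, and the
comparison `b'' ≥ λ² b` with `cosh`. -/

set_option autoImplicit false

namespace Pool.Agent.helper85.Path

open Filter Set MeasureTheory intervalIntegral
open scoped Topology Real

/-- Wirtinger inequality with a constant `a < 1/2` on an interval of length `2π`. -/
theorem wirtinger {y y' : ℝ → ℝ} {α a : ℝ} (ha : 0 < a) (ha2 : a < 1 / 2)
    (hy : ∀ t, HasDerivAt y (y' t) t) (hy' : Continuous y') (h0 : y α = 0)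
    (h1 : y (α + 2 * π) = 0) :
    a ^ 2 * ∫ t in α..(α + 2 * π), y t ^ 2 ≤ ∫ t in α..(α + 2 * π), y' t ^ 2 := by
  have hyc : Continuous y := continuous_iff_continuousAt.2 fun t => (hy t).continuousAt
  have hpi := Real.pi_pos
  set β : ℝ := (π - 2 * π * a) / 2 with hβ
  have hβ0 : 0 < β := by
    rw [hβ]
    have : 2 * π * a < π := by nlinarith
    linarith
  set ω : ℝ → ℝ := fun t => a * (t - α) + β with hω
  have hωpos : ∀ t ∈ Icc α (α + 2 * π), 0 < Real.sin (ω t) := by
    intro t ht
    apply Real.sin_pos_of_pos_of_lt_pi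
    · have : 0 ≤ a * (t - α) := mul_nonneg ha.le (by linarith [ht.1])
      simp only [hω]; linarith
    · have : a * (t - α) ≤ a * (2 * π) := mul_le_mul_of_nonneg_left (by linarith [ht.2]) ha.le
      simp only [hω, hβ]
      linarith
  set h : ℝ → ℝ := fun t => a * (Real.cos (ω t) / Real.sin (ω t)) with hh
  have hωd : ∀ t, HasDerivAt ω a t := by
    intro t
    have := (((hasDerivAt_id t).sub_const α).const_mul a).add_const β
    simpa [hω] using this
  have hhd : ∀ t ∈ Icc α (α + 2 * π), HasDerivAt h (-a ^ 2 - h t ^ 2) t := by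
    intro t ht
    have hs := (hωpos t ht).ne'
    have h1 := ((hωd t).cos.div (hωd t).sin hs).const_mul a
    refine h1.congr_deriv ?_
    simp only [hh]
    field_simp
  have hhc : ContinuousOn h (Icc α (α + 2 * π)) := fun t ht =>
    (hhd t ht).continuousAt.continuousWithinAt
  have hle : α ≤ α + 2 * π := by linarith
  have hu : uIcc α (α + 2 * π) = Icc α (α + 2 * π) := uIcc_of_le hle
  have hΦ : ∀ t ∈ uIcc α (α + 2 * π), HasDerivAt (fun t => h t * y t ^ 2)
      ((-a ^ 2 - h t ^ 2) * y t ^ 2 + h t * (2 * y t * y' t)) t := by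
    intro t ht
    rw [hu] at ht
    have := (hhd t ht).mul ((hy t).pow 2)
    refine this.congr_deriv ?_
    simp
  have hcont : ContinuousOn (fun t => (-a ^ 2 - h t ^ 2) * y t ^ 2 + h t * (2 * y t * y' t))
      (uIcc α (α + 2 * π)) := by
    rw [hu]; fun_prop
  have hI := integral_eq_sub_of_hasDerivAt hΦ hcont.intervalIntegrable
  simp only [h0, h1] at hI
  have hsq : 0 ≤ ∫ t in α..(α + 2 * π), (y' t - h t * y t) ^ 2 :=
    integral_nonneg hle fun t _ => sq_nonneg _
  have e : ∀ t, (y' t - h t * y t) ^ 2 = y' t ^ 2 -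
      ((-a ^ 2 - h t ^ 2) * y t ^ 2 + h t * (2 * y t * y' t)) - a ^ 2 * y t ^ 2 := by
    intro t; ring
  simp_rw [e] at hsq
  rw [intervalIntegral.integral_sub, intervalIntegral.integral_sub, hI,
    intervalIntegral.integral_const_mul] at hsq
  · linarith
  · exact (hy'.pow 2).intervalIntegrable _ _
  · exact hcont.intervalIntegrable
  · exact ((hy'.pow 2).intervalIntegrable _ _).sub hcont.intervalIntegrable
  · exact (continuous_const.mul (hyc.pow 2)).intervalIntegrable _ _

/-- A function on a left half-line with nonnegative second derivative that stays bounded at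
`-∞` is nondecreasing. -/
theorem deriv_nonneg_of_bdd {A A1 A2 : ℝ → ℝ} {T B : ℝ} (h1 : ∀ t < T, HasDerivAt A (A1 t) t)
    (h2 : ∀ t < T, HasDerivAt A1 (A2 t) t) (h3 : ∀ t < T, 0 ≤ A2 t)
    (hA : ∀ t < T, 0 ≤ A t) (hB : ∀ᶠ t in atBot, A t ≤ B) {t : ℝ} (ht : t < T) : 0 ≤ A1 t := by
  by_contra hneg
  push Not at hneg
  have hmono : ∀ s ≤ t, A1 s ≤ A1 t := by
    intro s hs
    have hm : MonotoneOn A1 (Iic t) := by
      apply monotoneOn_of_deriv_nonneg (convex_Iic t)
      · exact fun x hx => (h2 x (lt_of_le_of_lt hx ht)).continuousAt.continuousWithinAt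
      · intro x hx
        rw [interior_Iic] at hx
        exact (h2 x (lt_trans hx ht)).differentiableAt.differentiableWithinAt
      · intro x hx
        rw [interior_Iic] at hx
        rw [(h2 x (lt_trans hx ht)).deriv]
        exact h3 x (lt_trans hx ht)
    exact hm hs (mem_Iic.2 le_rfl) hs
  -- then `A s ≥ A t + (A1 t) (s - t)` for `s ≤ t`
  have hlow : ∀ s ≤ t, A1 t * (s - t) ≤ A s := by
    intro s hs
    have hm : MonotoneOn (fun x => A1 t * x - A x) (Iic t) := by
      have hd : ∀ x < T, HasDerivAt (fun x => A1 t * x - A x) (A1 t * 1 - A1 x) x := fun x hx =>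
        ((hasDerivAt_id x).const_mul (A1 t)).sub (h1 x hx)
      apply monotoneOn_of_deriv_nonneg (convex_Iic t)
      · exact fun x hx => (hd x (lt_of_le_of_lt hx ht)).continuousAt.continuousWithinAt
      · intro x hx
        rw [interior_Iic] at hx
        exact (hd x (lt_trans hx ht)).differentiableAt.differentiableWithinAt
      · intro x hx
        rw [interior_Iic] at hx
        rw [(hd x (lt_trans hx ht)).deriv]
        have := hmono x (le_of_lt hx)
        linarith
    have := hm (mem_Iic.2 hs) (mem_Iic.2 le_rfl) hs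
    simp only at this
    have h0 := hA t ht
    linarith [mul_sub (A1 t) s t]
  obtain ⟨s, hs1, hs2⟩ := (hB.and (eventually_le_atBot (min t (t + (B + 1) / A1 t)))).exists
  have hst : s ≤ t := hs2.trans (min_le_left _ _)
  have h4 := hlow s hst
  have h5 : s - t ≤ (B + 1) / A1 t := by
    have := hs2.trans (min_le_right _ _)
    linarith
  have h6 : B + 1 ≤ A1 t * (s - t) := by
    have := mul_le_mul_of_nonpos_left h5 hneg.le
    rwa [mul_div_cancel₀ _ hneg.ne] at this
  linarith

theorem mono_of_bdd {A A1 A2 : ℝ → ℝ} {T B : ℝ} (h1 : ∀ t < T, HasDerivAt A (A1 t) t)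
    (h2 : ∀ t < T, HasDerivAt A1 (A2 t) t) (h3 : ∀ t < T, 0 ≤ A2 t)
    (hA : ∀ t < T, 0 ≤ A t) (hB : ∀ᶠ t in atBot, A t ≤ B) {s t : ℝ} (hst : s ≤ t) (ht : t < T) :
    A s ≤ A t := by
  have hm : MonotoneOn A (Iic t) := by
    apply monotoneOn_of_deriv_nonneg (convex_Iic t)
    · exact fun x hx => (h1 x (lt_of_le_of_lt hx ht)).continuousAt.continuousWithinAt
    · intro x hx
      rw [interior_Iic] at hx
      exact (h1 x (lt_trans hx ht)).differentiableAt.differentiableWithinAt
    · intro x hx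
      rw [interior_Iic] at hx
      rw [(h1 x (lt_trans hx ht)).deriv]
      exact deriv_nonneg_of_bdd h1 h2 h3 hA hB (lt_trans hx ht)
  exact hm hst (mem_Iic.2 le_rfl) hst

/-- `b'' ≥ λ² b`, `b'(t₀) ≥ 0` imply `b t ≥ b t₀ cosh (λ (t - t₀))`. -/
theorem cosh_bound {b b1 b2 : ℝ → ℝ} {l t₀ t₁ : ℝ} (ht : t₀ ≤ t₁)
    (h1 : ∀ t ∈ Icc t₀ t₁, HasDerivAt b (b1 t) t) (h2 : ∀ t ∈ Icc t₀ t₁, HasDerivAt b1 (b2 t) t)
    (h3 : ∀ t ∈ Icc t₀ t₁, l ^ 2 * b t ≤ b2 t) (h4 : 0 ≤ b1 t₀) :
    b t₀ * Real.cosh (l * (t₁ - t₀)) ≤ b t₁ := by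
  have hlin : ∀ t, HasDerivAt (fun t => l * (t - t₀)) l t := by
    intro t
    simpa using ((hasDerivAt_id t).sub_const t₀).const_mul l
  have hc : ∀ t, HasDerivAt (fun t => Real.cosh (l * (t - t₀))) (Real.sinh (l * (t - t₀)) * l) t :=
    fun t => (hlin t).cosh
  have hs : ∀ t, HasDerivAt (fun t => Real.sinh (l * (t - t₀))) (Real.cosh (l * (t - t₀)) * l) t :=
    fun t => (hlin t).sinh
  -- first integral
  have hφ : ∀ t ∈ Icc t₀ t₁, 0 ≤ b1 t * Real.cosh (l * (t - t₀)) - b t * (l * Real.sinh (l * (t - t₀))) := by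
    have hd : ∀ t ∈ Icc t₀ t₁, HasDerivAt
        (fun t => b1 t * Real.cosh (l * (t - t₀)) - b t * (l * Real.sinh (l * (t - t₀))))
        ((b2 t - l ^ 2 * b t) * Real.cosh (l * (t - t₀))) t := by
      intro t ht'
      have := ((h2 t ht').mul (hc t)).sub ((h1 t ht').mul ((hs t).const_mul l))
      refine this.congr_deriv ?_
      ring
    have hm : MonotoneOn
        (fun t => b1 t * Real.cosh (l * (t - t₀)) - b t * (l * Real.sinh (l * (t - t₀))))
        (Icc t₀ t₁) := by
      apply monotoneOn_of_deriv_nonneg (convex_Icc t₀ t₁)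
      · exact fun x hx => (hd x hx).continuousAt.continuousWithinAt
      · intro x hx
        exact (hd x (interior_subset hx)).differentiableAt.differentiableWithinAt
      · intro x hx
        rw [(hd x (interior_subset hx)).deriv]
        have := h3 x (interior_subset hx)
        exact mul_nonneg (by linarith) (Real.cosh_pos _).le
    intro t ht'
    have := hm (left_mem_Icc.2 ht) ht' ht'.1
    simp only [sub_self, mul_zero, Real.cosh_zero, mul_one, Real.sinh_zero, sub_zero] at this
    linarith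
  have hd : ∀ t ∈ Icc t₀ t₁, HasDerivAt (fun t => b t / Real.cosh (l * (t - t₀)))
      ((b1 t * Real.cosh (l * (t - t₀)) - b t * (Real.sinh (l * (t - t₀)) * l))
        / Real.cosh (l * (t - t₀)) ^ 2) t := fun t ht' =>
    (h1 t ht').div (hc t) (Real.cosh_pos _).ne'
  have hm : MonotoneOn (fun t => b t / Real.cosh (l * (t - t₀))) (Icc t₀ t₁) := by
    apply monotoneOn_of_deriv_nonneg (convex_Icc t₀ t₁)
    · exact fun x hx => (hd x hx).continuousAt.continuousWithinAt
    · intro x hx
      exact (hd x (interior_subset hx)).differentiableAt.differentiableWithinAt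
    · intro x hx
      rw [(hd x (interior_subset hx)).deriv]
      have := hφ x (interior_subset hx)
      apply div_nonneg _ (by positivity)
      linarith [mul_comm (Real.sinh (l * (x - t₀))) l]
  have := hm (left_mem_Icc.2 ht) (right_mem_Icc.2 ht) ht
  simp only [sub_self, mul_zero, Real.cosh_zero, div_one] at this
  rwa [le_div_iff₀ (Real.cosh_pos _)] at this

end Pool.Agent.helper85.Path
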