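import Pool.Agent.helper85.Path.Carl

/-! Level components of `log ‖F‖` in a disc and the dichotomy. -/

set_option autoImplicit false

namespace Pool.Agent.helper85.Path

open Filter Set MeasureTheory Complex
open scoped Topology Real

/-- super-level set in a ball -/
def US (F : ℂ → ℂ) (c : ℂ) (ρ M : ℝ) : Set ℂ := {z | z ∈ Metric.ball c ρ ∧ M < Real.log ‖F z‖}

/-- its component containing the centre -/
def DS (F : ℂ → ℂ) (c : ℂ) (ρ M : ℝ) : Set ℂ := connectedComponentIn (US F c ρ M) c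

variable {F : ℂ → ℂ} {c : ℂ} {ρ M : ℝ}

theorem ne_zero_of_log {z : ℂ} (hM : 0 ≤ M) (h : M < Real.log ‖F z‖) : F z ≠ 0 := by
  intro h0
  rw [h0, norm_zero, Real.log_zero] at h
  exact absurd h (not_lt.2 hM)

theorem continuousAt_log_norm (hF : Differentiable ℂ F) {z : ℂ} (h : F z ≠ 0) :
    ContinuousAt (fun z => Real.log ‖F z‖) z := by
  have : ContinuousAt (fun z => ‖F z‖) z := hF.continuous.continuousAt.norm
  exact this.log (by simpa using h)

theorem US_open (hF : Differentiable ℂ F) (hM : 0 ≤ M) : IsOpen (US F c ρ M) := by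
  rw [isOpen_iff_mem_nhds]
  rintro z ⟨h1, h2⟩
  have h3 := (continuousAt_log_norm hF (ne_zero_of_log hM h2)).eventually (lt_mem_nhds h2)
  filter_upwards [Metric.isOpen_ball.mem_nhds h1, h3] with x hx1 hx2
  exact ⟨hx1, hx2⟩

theorem DS_open (hF : Differentiable ℂ F) (hM : 0 ≤ M) : IsOpen (DS F c ρ M) :=
  (US_open hF hM).connectedComponentIn

theorem DS_sub : DS F c ρ M ⊆ US F c ρ M := connectedComponentIn_subset _ _

theorem DS_closure (hF : Differentiable ℂ F) (hM : 0 ≤ M) {z : ℂ} (hz : z ∈ Metric.ball c ρ)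
    (h1 : z ∉ DS F c ρ M) (h2 : z ∈ closure (DS F c ρ M)) :
    F z ≠ 0 ∧ Real.log ‖F z‖ = M := by
  have hnU : z ∉ US F c ρ M := by
    intro hU
    have ho : connectedComponentIn (US F c ρ M) z ∈ 𝓝 z :=
      ((US_open hF hM).connectedComponentIn).mem_nhds (mem_connectedComponentIn hU)
    obtain ⟨x, hx1, hx2⟩ := mem_closure_iff_nhds.1 h2 _ ho
    have e1 := connectedComponentIn_eq hx1
    have e2 : connectedComponentIn (US F c ρ M) c = connectedComponentIn (US F c ρ M) x :=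
      connectedComponentIn_eq hx2
    apply h1
    rw [DS, e2, ← e1]
    exact mem_connectedComponentIn hU
  have hle : Real.log ‖F z‖ ≤ M := by
    by_contra hlt
    exact hnU ⟨hz, not_le.1 hlt⟩
  have hne : F z ≠ 0 := by
    intro h0
    have h3 : ∀ᶠ x in 𝓝 z, ‖F x‖ < 1 := by
      have : ContinuousAt (fun z => ‖F z‖) z := hF.continuous.continuousAt.norm
      apply this.eventually (gt_mem_nhds _)
      simp [h0]
    obtain ⟨x, hx1, hx2⟩ := mem_closure_iff_nhds.1 h2 _ h3
    have h4 := (DS_sub hx2).2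
    have h5 : Real.log ‖F x‖ ≤ 0 := Real.log_nonpos (norm_nonneg _) (le_of_lt hx1)
    linarith
  refine ⟨hne, le_antisymm hle ?_⟩
  by_contra hlt
  push Not at hlt
  have h3 := (continuousAt_log_norm hF hne).eventually (gt_mem_nhds hlt)
  obtain ⟨x, hx1, hx2⟩ := mem_closure_iff_nhds.1 h2 _ h3
  exact absurd (DS_sub hx2).2 (not_lt.2 (le_of_lt hx1))

/-- the entire function in logarithmic coordinates -/
noncomputable def ES (F : ℂ → ℂ) (c : ℂ) : ℂ → ℂ := fun ζ => F (c + exp ζ)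

/-- the component in logarithmic coordinates -/
def LS (F : ℂ → ℂ) (c : ℂ) (ρ M : ℝ) : Set ℂ := {ζ | c + exp ζ ∈ DS F c ρ M}

theorem mem_ball_exp {ζ : ℂ} (hρ : 0 < ρ) (h : ζ.re < Real.log ρ) : c + exp ζ ∈ Metric.ball c ρ := by
  rw [mem_ball_iff_norm, add_sub_cancel_left, norm_exp]
  exact (Real.lt_log_iff_exp_lt hρ).1 h

theorem comp_LS (hF : Differentiable ℂ F) (hM : 0 ≤ M) (hρ : 0 < ρ) :
    Comp (ES F c) M (Real.log ρ) (LS F c ρ M) := by
  have hcont : Continuous fun ζ : ℂ => c + exp ζ := by fun_prop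
  refine ⟨hF.comp (by fun_prop), hM, fun ζ hζ => ?_⟩
  by_cases h1 : c + exp ζ ∈ DS F c ρ M
  · left
    refine ⟨hcont.continuousAt ((DS_open hF hM).mem_nhds h1), (DS_sub h1).2⟩
  · by_cases h2 : c + exp ζ ∈ closure (DS F c ρ M)
    · right; right
      obtain ⟨h3, h4⟩ := DS_closure hF hM (mem_ball_exp hρ hζ) h1 h2
      exact ⟨h3, h4, h1⟩
    · right; left
      have : (closure (DS F c ρ M))ᶜ ∈ 𝓝 (c + exp ζ) := isClosed_closure.isOpen_compl.mem_nhds h2
      filter_upwards [hcont.continuousAt this] with x hx hx'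
      exact hx (subset_closure hx')

theorem per_LS : Per (ES F c) (LS F c ρ M) := by
  constructor
  · intro ζ
    simp only [ES]
    rw [Complex.exp_periodic ζ]
  · intro ζ
    simp only [LS, mem_ofPred_eq]
    rw [Complex.exp_periodic ζ]

theorem center_mem (hρ : 0 < ρ) (hc : M < Real.log ‖F c‖) : c ∈ DS F c ρ M :=
  mem_connectedComponentIn ⟨Metric.mem_ball_self hρ, hc⟩

theorem lim_LS (hF : Differentiable ℂ F) (hM : 0 ≤ M) (hρ : 0 < ρ) (hc : M < Real.log ‖F c‖)
    {p : ℝ} (hp : 0 < p) :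
    Tendsto (Ai (ES F c) M (LS F c ρ M) p) atBot
      (𝓝 (2 * π * (Real.log ‖F c‖ - M) ^ p)) := by
  set w := (Real.log ‖F c‖ - M) ^ p with hw
  set G : ℂ → ℝ := (DS F c ρ M).indicator fun z => (Real.log ‖F z‖ - M) ^ p with hG
  have hcm := center_mem hρ hc
  have hGc : G c = w := indicator_of_mem hcm _
  have hGcont : ContinuousAt G c := by
    have h1 : ContinuousAt (fun z => (Real.log ‖F z‖ - M) ^ p) c :=
      ((continuousAt_log_norm hF (ne_zero_of_log hM hc)).sub continuousAt_const).rpow_const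
        (Or.inr hp.le)
    apply h1.congr
    filter_upwards [(DS_open hF hM).mem_nhds hcm] with x hx
    rw [hG, indicator_of_mem hx]
  have hAi : ∀ t, Ai (ES F c) M (LS F c ρ M) p t = ∫ θ in (0 : ℝ)..(2 * π), G (c + exp (t + θ * I)) := by
    intro t
    rw [Ai]
    congr 1
  rw [Metric.tendsto_nhds]
  intro ε hε
  have hε' : 0 < ε / (4 * π) := by positivity
  obtain ⟨δ, hδ, hδ'⟩ := Metric.continuousAt_iff.1 hGcont _ hε'
  filter_upwards [eventually_lt_atBot (Real.log δ), eventually_lt_atBot (Real.log ρ)] with t ht htρ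
  have hb : ∀ θ : ℝ, ‖G (c + exp (t + θ * I)) - w‖ ≤ ε / (4 * π) := by
    intro θ
    have h1 : dist (c + exp (t + θ * I)) c < δ := by
      rw [dist_eq_norm, add_sub_cancel_left, norm_exp]
      have : ((t : ℂ) + θ * I).re = t := by simp
      rw [this]
      exact (Real.lt_log_iff_exp_lt hδ).1 ht
    have h2 := hδ' h1
    rw [hGc, dist_eq_norm] at h2
    exact h2.le
  have hint : IntervalIntegrable (fun θ : ℝ => G (c + exp (t + θ * I))) volume 0 (2 * π) := by
    have := cont_line ((comp_LS (c := c) hF hM hρ).cont0 (p := p) hp) htρ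
    exact this.intervalIntegrable _ _
  rw [dist_eq_norm, hAi]
  have e : ∫ θ in (0 : ℝ)..(2 * π), (G (c + exp (t + θ * I)) - w)
      = (∫ θ in (0 : ℝ)..(2 * π), G (c + exp (t + θ * I))) - 2 * π * w := by
    rw [intervalIntegral.integral_sub hint intervalIntegrable_const, intervalIntegral.integral_const,
      smul_eq_mul, sub_zero]
  rw [← e]
  have h3 := intervalIntegral.norm_integral_le_of_norm_le_const (a := 0) (b := 2 * π)
    (f := fun θ : ℝ => G (c + exp (t + θ * I)) - w) (C := ε / (4 * π)) (fun θ _ => hb θ)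
  rw [sub_zero, abs_of_pos (by positivity)] at h3
  have h4 : ε / (4 * π) * (2 * π) = ε / 2 := by field_simp; norm_num
  rw [h4] at h3
  linarith

/-- **Dichotomy.** -/
theorem dichotomy (hF : Differentiable ℂ F) (hM : 0 ≤ M) (hc : M < Real.log ‖F c‖) {l s₀ s₁ : ℝ}
    (hl0 : 0 < l) (hl : l < 1 / 2) (h0 : 0 < s₀) (h01 : s₀ ≤ s₁) (h1 : s₁ < ρ) :
    (∃ s ∈ Icc s₀ s₁, Metric.sphere c s ⊆ DS F c ρ M) ∨
      ∃ z ∈ DS F c ρ M, ‖z - c‖ = s₁ ∧
        (Real.log ‖F c‖ - M) * Real.cosh (l * (Real.log s₁ - Real.log s₀)) ≤ Real.log ‖F z‖ - M := by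
  by_cases hs : ∃ s ∈ Icc s₀ s₁, Metric.sphere c s ⊆ DS F c ρ M
  · exact Or.inl hs
  right
  push Not at hs
  have hρ : 0 < ρ := by linarith
  have hs1 : 0 < s₁ := by linarith
  obtain ⟨θ, hθ1, hθ2⟩ := (comp_LS (c := c) hF hM hρ).carleman per_LS hl0 hl
    (t₀ := Real.log s₀) (t₁ := Real.log s₁) (Real.log_le_log h0 h01)
    (Real.log_lt_log hs1 h1) (by
      intro t ht
      have hts : Real.exp t ∈ Icc s₀ s₁ :=
        ⟨(Real.log_le_iff_le_exp h0).1 ht.1, (Real.le_log_iff_exp_le hs1).1 ht.2⟩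
      obtain ⟨z, hz1, hz2⟩ := not_subset.1 (hs _ hts)
      refine ⟨arg (z - c), fun hmem => hz2 ?_⟩
      have hz3 : ‖z - c‖ = Real.exp t := by simpa [dist_eq_norm] using hz1
      have : c + exp (t + arg (z - c) * I) = z := by
        rw [Complex.exp_add, ← ofReal_exp, ← hz3, norm_mul_exp_arg_mul_I]
        ring
      simpa [LS, this] using hmem) (sub_pos.2 hc) (fun p hp => lim_LS hF hM hρ hc hp)
  refine ⟨c + exp (Real.log s₁ + θ * I), hθ1, ?_, hθ2⟩
  rw [add_sub_cancel_left, norm_exp]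
  have : ((Real.log s₁ : ℂ) + θ * I).re = Real.log s₁ := by simp
  rw [this, Real.exp_log hs1]

end Pool.Agent.helper85.Path
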